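import Pool.Agent.H755R2.MT.Hilbert

/-! # Uniform cone condition: smoothness of power type two -/

set_option autoImplicit false

namespace Pool.Agent.X192.BM

open Pool.H755R2.MT TopologicalSpace

variable {E : Type*} [NormedAddCommGroup E] [NormedSpace ℝ E]

/-- nearby unit vectors are moved into each other by isometries which keep the distance of a third
vector `u` from the ray of its image at most `κ` -/
def UCT (E : Type*) [NormedAddCommGroup E] [NormedSpace ℝ E] (κ t : ℝ) : Prop :=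
  ∀ x y u : E, ‖x‖ = 1 → ‖y‖ = 1 → ‖u‖ = 1 → ‖x - y‖ ≤ t →
    ∃ (T : E ≃ₗᵢ[ℝ] E) (l : ℝ), 0 ≤ l ∧ T x = y ∧ ‖T u - l • u‖ ≤ κ

lemma ult_of_uct {κ t : ℝ} (h : UCT E κ t) : ULT E 2 t := by
  intro x y u hx hy hu hxy
  obtain ⟨T, l, _, h1, _⟩ := h x y u hx hy hu hxy
  refine ⟨T, h1, (norm_sub_le _ _).trans ?_⟩
  rw [T.norm_map, hu]
  norm_num

lemma l_le {κ l : ℝ} {T : E ≃ₗᵢ[ℝ] E} {u : E} (hu : ‖u‖ = 1) (hl : 0 ≤ l)
    (h : ‖T u - l • u‖ ≤ κ) : l ≤ 1 + κ ∧ 1 - κ ≤ l := by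
  have h1 : ‖l • u‖ = l := by rw [norm_smul, hu, mul_one, Real.norm_of_nonneg hl]
  have h2 : ‖T u‖ = 1 := by rw [T.norm_map, hu]
  have h3 := norm_sub_norm_le (T u) (l • u)
  have h4 := norm_sub_norm_le (l • u) (T u)
  rw [norm_sub_rev] at h4
  constructor <;> linarith

/-- second differences are monotone along rays -/
lemma dl_mono (x w : E) {a b : ℝ} (ha : 0 ≤ a) (hab : a ≤ b) (hb : 0 < b) :
    dl x (a • w) ≤ dl x (b • w) := by
  have h1 := dl_convex x (0 : E) (b • w) (a := a / b) (by positivity)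
    (by rw [div_le_one hb]; exact hab)
  rw [smul_zero, zero_add, smul_smul, div_mul_cancel₀ _ hb.ne', dl_zero, mul_zero, zero_add] at h1
  have h2 := dl_nonneg x (b • w)
  have h3 : a / b ≤ 1 := by rw [div_le_one hb]; exact hab
  nlinarith

/-- perturbation of a nearly extremal direction -/
lemma pert2 {x w w2 : E} {κ K σ l c : ℝ} (hσ0 : 0 < σ) (hw : σ ≤ ‖w‖) (hκ0 : 0 < κ)
    (hκ1 : κ < 1) (hKpos : 0 < K)
    (hKub : ∀ w : E, σ ≤ ‖w‖ → dl x w ≤ K * ‖w‖ ^ 2)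
    (hxw : (1 - (1 - κ) / 2) * K * ‖w‖ ^ 2 < dl x w) (hl : 0 ≤ l)
    (hw2 : ‖w - l • w2‖ ≤ κ * ‖w‖) (hc : l ≤ c * (1 - κ)) (hc0 : 0 < c) :
    (1 - κ) / 2 * K * ‖w‖ ^ 2 ≤ dl x (c • w2) := by
  have hs0 : 0 < ‖w‖ := hσ0.trans_le hw
  have hk : 0 < 1 - κ := by linarith
  set v : E := κ⁻¹ • (w - l • w2) with hv
  have hvn : ‖v‖ ≤ ‖w‖ := by
    rw [hv, norm_smul, norm_inv, Real.norm_of_nonneg hκ0.le, inv_mul_le_iff₀ hκ0]
    exact hw2
  have hwv : w = (1 - κ) • ((l / (1 - κ)) • w2) + κ • v := by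
    rw [hv, smul_inv_smul₀ hκ0.ne', smul_smul, mul_div_cancel₀ _ hk.ne']
    abel
  have hdv : dl x v ≤ K * ‖w‖ ^ 2 := dl_ray hσ0 hw hvn hKpos.le hKub
  have hcv := dl_convex x ((l / (1 - κ)) • w2) v hκ0.le hκ1.le
  rw [← hwv] at hcv
  have hm := dl_mono x w2 (a := l / (1 - κ)) (b := c) (by positivity)
    (by rw [div_le_iff₀ hk]; exact hc) hc0
  have h0 := dl_nonneg x (c • w2)
  have e1 : κ * dl x v ≤ κ * (K * ‖w‖ ^ 2) := mul_le_mul_of_nonneg_left hdv hκ0.le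
  have e2 : (1 - κ) * dl x ((l / (1 - κ)) • w2) ≤ dl x (c • w2) := by
    calc (1 - κ) * dl x ((l / (1 - κ)) • w2) ≤ (1 - κ) * dl x (c • w2) :=
          mul_le_mul_of_nonneg_left hm hk.le
      _ ≤ 1 * dl x (c • w2) := mul_le_mul_of_nonneg_right (by linarith) h0
      _ = dl x (c • w2) := one_mul _
  nlinarith

/-- second differences near `x` in terms of those at `x` -/
lemma transfer2 {κ t t' : ℝ} (h' : UCT E κ t) (ht'1 : t' ≤ t / 2) (ht'3 : t' ≤ 1 / 16)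
    (hκ1 : κ < 1) {x w z : E} (hx : ‖x‖ = 1) (hw : 0 < ‖w‖) (hzx : ‖z - x‖ ≤ t') :
    ∃ (w2 : E) (l : ℝ), 0 ≤ l ∧ l ≤ 4 ∧ ‖w - l • w2‖ ≤ κ * ‖w‖ ∧
      ∀ c : ℝ, 1 / 2 * dl x (c • w2) ≤ dl z (c • w) := by
  set s : ℝ := ‖w‖ with hs
  set u : E := s⁻¹ • w with hu
  have hun : ‖u‖ = 1 := by
    rw [hu, norm_smul, norm_inv, Real.norm_of_nonneg hw.le, ← hs, inv_mul_cancel₀ hw.ne']
  have hwu : w = s • u := by
    rw [hu, smul_inv_smul₀ hw.ne']
  have hz1 : |‖z‖ - 1| ≤ t' := by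
    rw [← hx]
    exact (abs_norm_sub_norm_le z x).trans hzx
  obtain ⟨hz2, hz3⟩ := abs_le.1 hz1
  have hz0 : 0 < ‖z‖ := by linarith
  set y : E := ‖z‖⁻¹ • z with hy
  have hyn : ‖y‖ = 1 := by
    rw [hy, norm_smul, norm_inv, norm_norm, inv_mul_cancel₀ hz0.ne']
  have hzy : z = ‖z‖ • y := by
    rw [hy, smul_inv_smul₀ hz0.ne']
  have hyz : ‖z - y‖ ≤ t' := by
    have : z - y = (‖z‖ - 1) • y := by
      rw [sub_smul, one_smul, ← hzy]
    rw [this, norm_smul, hyn, mul_one]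
    exact hz1
  have hxy : ‖x - y‖ ≤ t := by
    have : x - y = (x - z) + (z - y) := by abel
    rw [this]
    refine (norm_add_le _ _).trans ?_
    rw [norm_sub_rev x z]
    linarith
  obtain ⟨T, l, hl, hT1, hT2⟩ := h' x y u hx hyn hun hxy
  have hl4 := (l_le hun hl hT2).1
  refine ⟨‖z‖⁻¹ • T.symm w, l * ‖z‖, by positivity, ?_, ?_, fun c => ?_⟩
  · have h1 : ‖z‖ ≤ 2 := by linarith
    calc l * ‖z‖ ≤ 2 * 2 := mul_le_mul (by linarith) h1 hz0.le (by norm_num)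
      _ = 4 := by norm_num
  · have e1 : w - (l * ‖z‖) • ‖z‖⁻¹ • T.symm w = T.symm (T w - l • w) := by
      rw [map_sub, T.symm_apply_apply, map_smul, smul_smul, mul_assoc,
        mul_inv_cancel₀ hz0.ne', mul_one]
    have e3 : T w - l • w = s • (T u - l • u) := by
      conv_lhs => rw [hwu]
      rw [map_smul]
      module
    rw [e1, T.symm.norm_map, e3, norm_smul, Real.norm_of_nonneg hw.le, mul_comm]
    exact mul_le_mul_of_nonneg_right hT2 hw.le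
  · have e1 : T (c • ‖z‖⁻¹ • T.symm w) = ‖z‖⁻¹ • (c • w) := by
      rw [map_smul, map_smul, T.apply_symm_apply, smul_comm]
    have e2 : dl x (c • ‖z‖⁻¹ • T.symm w) = dl y (‖z‖⁻¹ • (c • w)) := by
      rw [← dl_map T, hT1, e1]
    have e3 : dl z (c • w) = ‖z‖ * dl x (c • ‖z‖⁻¹ • T.symm w) := by
      rw [e2, ← dl_smul _ _ hz0.le, ← hzy, smul_inv_smul₀ hz0.ne']
    rw [e3]
    exact mul_le_mul_of_nonneg_right (by linarith) (dl_nonneg _ _)

/-- Step 1: the uniform cone condition implies smoothness of power type 2 -/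
theorem smooth_of_UCT {κ t : ℝ} (hκ : κ < 1) (ht : 0 < t) (h : UCT E κ t) :
    ∃ K : ℝ, 0 < K ∧ ∀ x w : E, ‖x‖ = 1 → dl x w ≤ K * ‖w‖ ^ 2 := by
  obtain ⟨κ', hκ'0, hκ'1, h'⟩ : ∃ κ', 0 < κ' ∧ κ' < 1 ∧ UCT E κ' t := by
    refine ⟨max κ (1 / 2), lt_max_of_lt_right (by norm_num), max_lt hκ (by norm_num), ?_⟩
    intro x y u hx hy hu hxy
    obtain ⟨T, l, h0, h1, h2⟩ := h x y u hx hy hu hxy
    exact ⟨T, l, h0, h1, h2.trans (le_max_left _ _)⟩
  set t' : ℝ := min (t / 2) (1 / 16) with ht'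
  have ht'0 : 0 < t' := lt_min (by linarith) (by norm_num)
  have ht'1 : t' ≤ t / 2 := min_le_left _ _
  have ht'3 : t' ≤ 1 / 16 := min_le_right _ _
  set η : ℝ := (1 - κ') / 2 with hη
  have hη0 : 0 < η := by rw [hη]; linarith
  have hη1 : η ≤ 1 / 2 := by rw [hη]; linarith
  set c : ℝ := 4 / (1 - κ') with hc
  have hk : 0 < 1 - κ' := by linarith
  have hc0 : 0 < c := by positivity
  have hc1 : 1 ≤ c := by
    rw [hc, le_div_iff₀ hk]
    linarith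
  have hKs : 0 < 8 * c ^ 2 / (η * t') := by positivity
  refine ⟨8 * c ^ 2 / (η * t'), hKs, ?_⟩
  intro x₀ w₀ hx₀
  rcases eq_or_ne w₀ 0 with rfl | hw₀
  · rw [dl_zero]; positivity
  have hσ0 : 0 < ‖w₀‖ := norm_pos_iff.2 hw₀
  set σ : ℝ := ‖w₀‖ with hσ
  set R : Set ℝ := {r | ∃ x w : E, ‖x‖ = 1 ∧ σ ≤ ‖w‖ ∧ r = dl x w / ‖w‖ ^ 2} with hR
  have hbdd : BddAbove R := by
    refine ⟨2 / σ, ?_⟩
    rintro r ⟨x, w, _, hw, rfl⟩
    have hw0 : 0 < ‖w‖ := hσ0.trans_le hw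
    rw [div_le_div_iff₀ (by positivity) hσ0]
    have := dl_le x w
    have h5 := dl_nonneg x w
    nlinarith
  have hmem : dl x₀ w₀ / ‖w₀‖ ^ 2 ∈ R := ⟨x₀, w₀, hx₀, le_rfl, rfl⟩
  set K : ℝ := sSup R with hK
  have hKub : ∀ x w : E, ‖x‖ = 1 → σ ≤ ‖w‖ → dl x w ≤ K * ‖w‖ ^ 2 := by
    intro x w hx hw
    have hw0 : 0 < ‖w‖ := hσ0.trans_le hw
    have := le_csSup hbdd (show dl x w / ‖w‖ ^ 2 ∈ R from ⟨x, w, hx, hw, rfl⟩)
    rwa [div_le_iff₀ (by positivity)] at this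
  suffices hmain : K ≤ 8 * c ^ 2 / (η * t') by
    have h1 := hKub x₀ w₀ hx₀ le_rfl
    exact h1.trans (mul_le_mul_of_nonneg_right hmain (by positivity))
  by_contra hcon
  push Not at hcon
  have hKpos : 0 < K := hKs.trans hcon
  obtain ⟨r, ⟨x, w, hx, hw, rfl⟩, hr⟩ := exists_lt_of_lt_csSup ⟨_, hmem⟩
    (show (1 - η) * K < sSup R by rw [← hK]; nlinarith)
  have hs0 : 0 < ‖w‖ := hσ0.trans_le hw
  have hxw : (1 - η) * K * ‖w‖ ^ 2 < dl x w := by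
    rwa [lt_div_iff₀ (by positivity)] at hr
  have hxw2 := dl_le x w
  have hbig : K * (η * t') ≤ 8 * c ^ 2 := by
    rcases le_or_gt t' (c * ‖w‖) with hst | hst
    · have h1 : (1 - η) * K * ‖w‖ ≤ 2 := by
        have : (1 - η) * K * ‖w‖ * ‖w‖ ≤ 2 * ‖w‖ := by nlinarith
        exact le_of_mul_le_mul_right this hs0
      have h2 : K * ‖w‖ ≤ 4 := by nlinarith [mul_pos hKpos hs0]
      have h3 : K * t' ≤ 4 * c := by
        calc K * t' ≤ K * (c * ‖w‖) := mul_le_mul_of_nonneg_left hst hKpos.le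
          _ = c * (K * ‖w‖) := by ring
          _ ≤ c * 4 := mul_le_mul_of_nonneg_left h2 hc0.le
          _ = 4 * c := by ring
      have h4 : K * t' * η ≤ K * t' * 1 :=
        mul_le_mul_of_nonneg_left (by linarith) (by positivity)
      have h5 : c ≤ c ^ 2 := by nlinarith
      nlinarith
    · have hcw : ‖c • w‖ = c * ‖w‖ := by rw [norm_smul, Real.norm_of_nonneg hc0.le]
      have hβ : ∀ z : E, ‖z - x‖ ≤ t' → 1 / 2 * (η * K * ‖w‖ ^ 2) ≤ dl z (c • w) := by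
        intro z hz
        obtain ⟨w2, l, hl0, hl4, hw2, hd⟩ := transfer2 h' ht'1 ht'3 hκ'1 hx hs0 hz
        have h2 := pert2 hσ0 hw hκ'0 hκ'1 hKpos (fun w hw => hKub x w hx hw) hxw hl0 hw2
          (c := c) (by rw [hc, div_mul_cancel₀ _ hk.ne']; exact hl4) hc0
        have h3 := hd c
        have e : (1 - κ') / 2 * K * ‖w‖ ^ 2 = η * K * ‖w‖ ^ 2 := by rw [hη]
        rw [e] at h2
        linarith
      have h1 := chain_bound hx (by rw [hcw]; positivity) (by rw [hcw]; exact hst) hβ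
      rw [hcw] at h1
      have h2 : (K * (η * t')) * ‖w‖ ^ 2 ≤ (8 * c ^ 2) * ‖w‖ ^ 2 := by nlinarith
      exact le_of_mul_le_mul_right h2 (by positivity)
  have hfin : K ≤ 8 * c ^ 2 / (η * t') := by
    rw [le_div_iff₀ (by positivity)]
    exact hbig
  linarith

end Pool.Agent.X192.BM
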