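import Pool.Agent.X192.BM.Cone

/-! # Uniform cone condition: quadratically exposing functionals and the Hilbert structure -/

set_option autoImplicit false
set_option linter.unusedSectionVars false

namespace Pool.Agent.X192.BM

open Pool.H755R2.MT TopologicalSpace

variable {E : Type*} [NormedAddCommGroup E] [NormedSpace ℝ E]

/-- Euler path: quadratically exposing functionals -/
theorem quad_slice2 [CompleteSpace E] [SeparableSpace E] {κ t K : ℝ}
    (hrank : 1 < Module.rank ℝ E) (hκ0 : 0 < κ) (hκ : κ < 1) (ht : 0 < t) (h : UCT E κ t)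
    (hK0 : 0 < K)
    (hK : ∀ x w : E, ‖x‖ = 1 → dl x w ≤ K * ‖w‖ ^ 2) :
    ∃ c : ℝ, 0 < c ∧ ∀ (x z : E) (f : StrongDual ℝ E), ‖x‖ = 1 → ‖f‖ ≤ 1 → f x = 1 →
      ‖z‖ = 1 → c * ‖z - x‖ ^ 2 ≤ 1 - f z := by
  set c0 : ℝ := (1 - κ) / (1 + κ) with hc0def
  have hkk : 0 < 1 - κ := by linarith
  have hc00 : 0 < c0 := by positivity
  have hc01 : c0 ≤ 1 := by
    rw [hc0def, div_le_one (by positivity)]
    linarith
  obtain ⟨δ, hδ, hsl⟩ := slices hrank ht (ult_of_uct h) hK0 hK (ε := c0 * t / 8) (by positivity)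
  set c : ℝ := min (δ / 4) (δ ^ 2 / (4 * t ^ 2 * K)) with hc
  have hc0 : 0 < c := lt_min (by positivity) (by positivity)
  have hc1 : c ≤ δ / 4 := min_le_left _ _
  have hc2 : c ≤ δ ^ 2 / (4 * t ^ 2 * K) := min_le_right _ _
  have hsq : t * Real.sqrt (K * c) ≤ δ / 2 := by
    have h1 : K * c ≤ (δ / (2 * t)) ^ 2 := by
      have : K * c ≤ K * (δ ^ 2 / (4 * t ^ 2 * K)) := mul_le_mul_of_nonneg_left hc2 hK0.le
      refine this.trans (le_of_eq ?_)
      field_simp
      ring
    have h2 : Real.sqrt (K * c) ≤ δ / (2 * t) := by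
      rw [← Real.sqrt_sq (show 0 ≤ δ / (2 * t) by positivity)]
      exact Real.sqrt_le_sqrt h1
    have h3 : t * Real.sqrt (K * c) ≤ t * (δ / (2 * t)) := mul_le_mul_of_nonneg_left h2 ht.le
    refine h3.trans (le_of_eq ?_)
    field_simp
  refine ⟨c, hc0, ?_⟩
  intro x z f hx hf hfx hz
  by_contra hcon
  push Not at hcon
  set v : E := z - x with hv
  have hzx : z = x + v := by rw [hv]; abel
  have hfz1 : f z ≤ 1 := by
    have := apply_le hf z
    rwa [hz] at this
  have hvn : 0 < ‖v‖ := by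
    rcases (norm_nonneg v).eq_or_lt with h0 | h0
    · rw [← h0] at hcon
      nlinarith
    · exact h0
  have hv2 : ‖v‖ ≤ 2 := by
    rw [hv]
    refine (norm_sub_le _ _).trans ?_
    rw [hz, hx]; norm_num
  have hfz : 1 - δ < f z := by
    have : c * ‖v‖ ^ 2 ≤ δ := by
      have h1 : ‖v‖ ^ 2 ≤ 4 := by nlinarith
      have h2 : c * ‖v‖ ^ 2 ≤ δ / 4 * 4 := mul_le_mul hc1 h1 (by positivity) (by positivity)
      linarith
    linarith
  have hvs := hsl x z f hx hf hfx hz.le hfz
  rw [← hv] at hvs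
  have hct : c0 * t ≤ t := by nlinarith
  set η : ℝ := c * ‖v‖ ^ 2 with hη
  have hη0 : 0 ≤ η := by positivity
  have hsqη : Real.sqrt (K * η) = Real.sqrt (K * c) * ‖v‖ := by
    rw [hη, ← mul_assoc, Real.sqrt_mul' _ (by positivity), Real.sqrt_sq hvn.le]
  set n : ℕ := ⌊t / (2 * ‖v‖)⌋₊ with hn
  have hn2 : (n : ℝ) * ‖v‖ ≤ t / 2 := by
    have := Nat.floor_le (show 0 ≤ t / (2 * ‖v‖) by positivity)
    rw [← hn, le_div_iff₀ (by positivity)] at this
    linarith
  have hn1 : 1 ≤ n := by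
    rw [hn, Nat.one_le_floor_iff, le_div_iff₀ (by positivity)]
    linarith
  have hn3 : t / 4 < (n : ℝ) * ‖v‖ := by
    have := Nat.lt_floor_add_one (t / (2 * ‖v‖))
    rw [← hn, div_lt_iff₀ (by positivity)] at this
    have h1 : (1 : ℝ) ≤ n := by exact_mod_cast hn1
    nlinarith
  set u : E := ‖v‖⁻¹ • v with hu
  have hun : ‖u‖ = 1 := by
    rw [hu, norm_smul, norm_inv, norm_norm, inv_mul_cancel₀ hvn.ne']
  have hvu : v = ‖v‖ • u := by
    rw [hu, smul_inv_smul₀ hvn.ne']
  obtain ⟨F, hF1, hF2⟩ := exists_dual_vector ℝ u (by rw [hun]; exact one_ne_zero)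
  have hFu : F u = 1 := by rw [hF2, hun]; simp
  have hpath : ∀ m : ℕ, m ≤ n → ∃ (y : E) (g : StrongDual ℝ E), ‖y‖ = 1 ∧ ‖g‖ ≤ 1 ∧ g y = 1 ∧
      ‖y - x‖ ≤ m * ‖v‖ ∧ m * (c0 * ‖v‖) ≤ F (y - x) ∧
      ∀ w : E, |g w - f w| ≤ m * (2 * Real.sqrt (K * η)) * ‖w‖ := by
    intro m
    induction m with
    | zero =>
      intro _
      refine ⟨x, f, hx, hf, hfx, ?_, ?_, ?_⟩
      · simp
      · simp
      · intro w; simp
    | succ m ih =>
      intro hm
      obtain ⟨y, g, hy, hg, hgy, hyx, hyF, hgf⟩ := ih (by omega)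
      have hmn : (m : ℝ) * ‖v‖ ≤ t / 2 := by
        have h1 : (m : ℝ) ≤ n := by exact_mod_cast (by omega : m ≤ n)
        exact (mul_le_mul_of_nonneg_right h1 hvn.le).trans hn2
      have hxy : ‖y - x‖ ≤ t := by linarith
      obtain ⟨T', l, hl, hT'1, hT'2⟩ := h y x u hy hx hun hxy
      set T : E ≃ₗᵢ[ℝ] E := T'.symm with hT
      have hT1 : T x = y := by rw [hT, ← hT'1, T'.symm_apply_apply]
      have hl1 := (l_le hun hl hT'2).1
      have hFT : c0 ≤ F (T u) := by
        have e1 : T (T' u - l • u) = u - l • T u := by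
          rw [map_sub, hT, T'.symm_apply_apply, map_smul]
        have e2 : F (T (T' u - l • u)) ≤ κ := by
          refine (apply_le hF1.le _).trans ?_
          rw [T.norm_map]
          exact hT'2
        have e2' : F (u - l • T u) = 1 - l * F (T u) := by
          rw [map_sub, hFu, F.map_smul, smul_eq_mul]
        rw [e1, e2'] at e2
        have e3 : 1 - κ ≤ l * F (T u) := by linarith
        have e4 : 0 < F (T u) := by
          by_contra hcon'
          push Not at hcon'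
          nlinarith
        rw [hc0def, div_le_iff₀ (by positivity)]
        calc 1 - κ ≤ l * F (T u) := e3
          _ ≤ (1 + κ) * F (T u) := mul_le_mul_of_nonneg_right hl1 e4.le
          _ = F (T u) * (1 + κ) := mul_comm _ _
      have hTv : ‖T v‖ = ‖v‖ := T.norm_map v
      have hFTv : c0 * ‖v‖ ≤ F (T v) := by
        have e1 : F (T v) = ‖v‖ * F (T u) := by
          conv_lhs => rw [hvu]
          rw [map_smul, map_smul, smul_eq_mul]
        rw [e1, mul_comm]
        exact mul_le_mul_of_nonneg_left hFT hvn.le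
      have hTz : ‖T z‖ = 1 := by rw [T.norm_map, hz]
      obtain ⟨g', hg'1, hg'2⟩ := exists_dual_vector ℝ (T z) (by rw [hTz]; exact one_ne_zero)
      have hg'3 : g' (T z) = 1 := by rw [hg'2, hTz]; simp
      -- `g ∘ T = f`
      set q : StrongDual ℝ E := g.comp (T : E →L[ℝ] E) with hq
      have hqa : ∀ w, q w = g (T w) := fun w => rfl
      have hqn : ‖q‖ ≤ 1 := by
        refine ContinuousLinearMap.opNorm_le_bound _ zero_le_one fun w => ?_
        rw [hqa]
        refine (g.le_opNorm _).trans ?_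
        rw [T.norm_map]
        exact mul_le_mul_of_nonneg_right hg (norm_nonneg _)
      have hqf : q = f := norming_unique hK0 hK hx hf hqn hfx (by rw [hqa, hT1, hgy])
      have hgTz : 1 - η ≤ g (T z) := by
        rw [← hqa, hqf]
        linarith
      have e1 : T z - x = (y - x) + T v := by
        rw [hzx, map_add, hT1]
        abel
      refine ⟨T z, g', hTz, hg'1.le, hg'3, ?_, ?_, ?_⟩
      · rw [e1]
        refine (norm_add_le _ _).trans ?_
        push_cast
        rw [hTv]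
        linarith
      · rw [e1, map_add]
        push_cast
        linarith
      · intro w
        have h1 := fdiff hK0 hη0 hK hTz hg'1.le hg hg'3 hgTz w
        have h2 := hgf w
        have h3 : g' w - f w = (g w - f w) - (g w - g' w) := by ring
        rw [h3]
        refine (abs_sub _ _).trans ?_
        push_cast
        linarith
  obtain ⟨y, g, hy, hg, hgy, hyx, hyF, hgf⟩ := hpath n le_rfl
  have h1 := hgf y
  rw [hgy, hy, mul_one, hsqη] at h1
  have h2 : (n : ℝ) * (2 * (Real.sqrt (K * c) * ‖v‖)) ≤ δ / 2 := by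
    have : (n : ℝ) * (2 * (Real.sqrt (K * c) * ‖v‖)) = 2 * Real.sqrt (K * c) * (n * ‖v‖) := by ring
    rw [this]
    have h3 : 2 * Real.sqrt (K * c) * (n * ‖v‖) ≤ 2 * Real.sqrt (K * c) * (t / 2) :=
      mul_le_mul_of_nonneg_left hn2 (by positivity)
    linarith
  have h3 := (abs_le.1 h1).2
  have h4 := hsl x y f hx hf hfx hy.le (by linarith)
  have h5 := apply_le hF1.le (y - x)
  have h6 : c0 * (t / 4) < c0 * (n * ‖v‖) := mul_lt_mul_of_pos_left hn3 hc00
  have h7 : (n : ℝ) * (c0 * ‖v‖) = c0 * (n * ‖v‖) := by ring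
  have h8 : 0 < c0 * t := by positivity
  linarith

/-- the dual norm is smooth of power type 2 -/
theorem dual_smooth2 [CompleteSpace E] [SeparableSpace E] {κ t : ℝ}
    (hrank : 1 < Module.rank ℝ E) (hκ0 : 0 < κ) (hκ : κ < 1) (ht : 0 < t) (h : UCT E κ t) :
    ∃ K : ℝ, 0 < K ∧ ∀ f g : StrongDual ℝ E, ‖f‖ = 1 → dl f g ≤ K * ‖g‖ ^ 2 := by
  obtain ⟨K, hK0, hK⟩ := smooth_of_UCT hκ ht h
  obtain ⟨c, hc0, hc⟩ := quad_slice2 hrank hκ0 hκ ht h hK0 hK
  refine ⟨1 / (2 * c), by positivity, ?_⟩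
  intro f g hf
  obtain ⟨x, hx1, hx2⟩ := attains hK0 hK f
  have hx : ‖x‖ = 1 := by
    apply le_antisymm hx1
    have := apply_le hf.le x
    rw [hx2, hf] at this
    exact this
  rw [hf] at hx2
  have key : ∀ k : StrongDual ℝ E, ‖f + k‖ ≤ 1 + k x + ‖k‖ ^ 2 / (4 * c) := by
    intro k
    have hub : ∀ z : E, ‖z‖ = 1 → (f + k) z ≤ 1 + k x + ‖k‖ ^ 2 / (4 * c) := by
      intro z hz
      have h1 := hc x z f hx hf.le hx2 hz
      have h2 : k z - k x ≤ ‖k‖ * ‖z - x‖ := by
        rw [← map_sub]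
        refine (le_abs_self _).trans ?_
        exact k.le_opNorm _
      have h3 : (f + k) z = f z + k z := rfl
      rw [h3]
      have h4 : ‖k‖ * ‖z - x‖ ≤ c * ‖z - x‖ ^ 2 + ‖k‖ ^ 2 / (4 * c) := by
        have h5 : 0 ≤ (c * ‖z - x‖ - ‖k‖ / 2) ^ 2 / c := by positivity
        have h6 : (c * ‖z - x‖ - ‖k‖ / 2) ^ 2 / c =
            c * ‖z - x‖ ^ 2 - ‖k‖ * ‖z - x‖ + ‖k‖ ^ 2 / (4 * c) := by
          field_simp
          ring
        linarith
      linarith
    have h0 : 0 ≤ 1 + k x + ‖k‖ ^ 2 / (4 * c) := by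
      have h1 := hub x hx
      have h2 := hub (-x) (by rw [norm_neg]; exact hx)
      rw [map_neg] at h2
      linarith
    refine ContinuousLinearMap.opNorm_le_of_unit_norm h0 fun z hz => ?_
    rw [Real.norm_eq_abs, abs_le]
    constructor
    · have := hub (-z) (by rw [norm_neg]; exact hz)
      rw [map_neg] at this
      linarith
    · exact hub z hz
  have h1 := key g
  have h2 := key (-g)
  rw [norm_neg, ← sub_eq_add_neg] at h2
  have h3 : (-g) x = -(g x) := rfl
  rw [h3] at h2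
  unfold dl
  rw [hf]
  have h4 : 1 / (2 * c) * ‖g‖ ^ 2 = ‖g‖ ^ 2 / (4 * c) + ‖g‖ ^ 2 / (4 * c) := by
    field_simp
    ring
  rw [h4]
  linarith

lemma uct_mono {κ κ' t : ℝ} (hk : κ ≤ κ') (h : UCT E κ t) : UCT E κ' t := by
  intro x y u hx hy hu hxy
  obtain ⟨T, l, h0, h1, h2⟩ := h x y u hx hy hu hxy
  exact ⟨T, l, h0, h1, h2.trans hk⟩

/-- the isomorphic conclusion -/
theorem main {E : Type} [NormedAddCommGroup E] [NormedSpace ℝ E] [CompleteSpace E]
    [TopologicalSpace.SeparableSpace E] {κ t : ℝ} (hκ : κ < 1) (ht : 0 < t)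
    (h : UCT E κ t) :
    ∃ (H : Type) (instH : NormedAddCommGroup H) (instI : InnerProductSpace ℝ H)
      (instC : CompleteSpace H), Nonempty (E ≃L[ℝ] H) := by
  rcases lt_or_ge 1 (Module.rank ℝ E) with hrank | hrank
  · have h' : UCT E (max κ (1 / 2)) t := uct_mono (le_max_left _ _) h
    have hk0 : 0 < max κ (1 / 2) := lt_max_of_lt_right (by norm_num)
    have hk1 : max κ (1 / 2) < 1 := max_lt hκ (by norm_num)
    obtain ⟨K, hK0, hK⟩ := smooth_of_UCT hk1 ht h'
    obtain ⟨K', hK'0, hK'⟩ := dual_smooth2 hrank hk0 hk1 ht h'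
    refine hilbert_of_bounds (c := 4 / (2 + 2 * K')) (C := 2 + 2 * K) (by positivity)
      (by positivity) ?_ (sq_upper hK)
    exact sq_lower (by positivity) (sq_upper hK')
  · have : FiniteDimensional ℝ E :=
      Module.rank_lt_aleph0_iff.1 (lt_of_le_of_lt hrank Cardinal.one_lt_aleph0)
    exact ⟨EuclideanSpace ℝ (Fin (Module.finrank ℝ E)), inferInstance, inferInstance,
      inferInstance, ⟨toEuclidean⟩⟩

end Pool.Agent.X192.BM
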