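import Pool.Agent.X192.BM.Rot

/-! # Separable transitive spaces with an isometric involution -/

set_option autoImplicit false

namespace Pool.Agent.X192.BM

open Pool.H590R3.Ab Pool.Agent.W687.Rot

variable {E : Type} [NormedAddCommGroup E] [NormedSpace ℝ E]

theorem invol [CompleteSpace E] [TopologicalSpace.SeparableSpace E]
    (htr : ∀ x y : E, ‖x‖ = 1 → ‖y‖ = 1 → ∃ T : E ≃ₗᵢ[ℝ] E, T x = y)
    (S : E ≃ₗᵢ[ℝ] E) (hS : ∀ z, S (S z) = z) (hS1 : ∃ z, S z ≠ z) (hS2 : ∃ z, S z ≠ -z)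
    (e : E) (he : ‖e‖ = 1) (δ : ℝ) (hδ : 0 < δ) :
    ∃ (v : E) (U T : E ≃ₗᵢ[ℝ] E), ‖v‖ = 1 ∧ T (S (T.symm e)) = e ∧ T (S (T.symm v)) = -v ∧
      (∀ z, T (S (T.symm (U (T (S (T.symm z)))))) = U.symm z) ∧
      (∀ φ : ℝ, 0 ≤ φ → φ ≤ 2 * Real.pi → ∃ k : ℕ,
        ‖(U ^ k) e - (Real.cos φ • e + Real.sin φ • v)‖ ≤ δ ∧
        ‖(U ^ k) v - (Real.cos φ • v - Real.sin φ • e)‖ ≤ δ) ∧
      ∀ p q : ℝ, |‖p • e + q • v‖ - Real.sqrt (p ^ 2 + q ^ 2)| ≤
        δ * Real.sqrt (p ^ 2 + q ^ 2) := by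
  let P : E →L[ℝ] E := (1 / 2 : ℝ) • (ContinuousLinearMap.id ℝ E - (S : E →L[ℝ] E))
  have hPa : ∀ z, P z = (1 / 2 : ℝ) • (z - S z) := fun z => rfl
  have hP : ∀ z, P (P z) = P z := by
    intro z
    rw [hPa, hPa, map_smul, map_sub, hS]
    module
  have hsz : ∀ z, z - (2 : ℝ) • P z = S z := by
    intro z
    rw [hPa]
    module
  have hs : ∀ z, ‖z - (2 : ℝ) • P z‖ = ‖z‖ := by
    intro z
    rw [hsz, S.norm_map]
  have hP1 : ∀ z, ‖P z‖ ≤ ‖z‖ := by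
    intro z
    rw [hPa, norm_smul, Real.norm_of_nonneg (by norm_num)]
    have := norm_sub_le z (S z)
    rw [S.norm_map] at this
    linarith
  have hP2 : ∀ z, ‖z - P z‖ ≤ ‖z‖ := by
    intro z
    have e1 : z - P z = (1 / 2 : ℝ) • (z + S z) := by
      rw [hPa]
      module
    rw [e1, norm_smul, Real.norm_of_nonneg (by norm_num)]
    have := norm_add_le z (S z)
    rw [S.norm_map] at this
    linarith
  obtain ⟨y0, hy0, hy⟩ : ∃ y0 : E, ‖y0‖ = 1 ∧ P y0 = 0 := by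
    obtain ⟨z, hz⟩ := hS2
    have hne : z + S z ≠ 0 := fun h => hz (eq_neg_of_add_eq_zero_right h)
    refine ⟨‖z + S z‖⁻¹ • (z + S z), ?_, ?_⟩
    · rw [norm_smul, norm_inv, norm_norm, inv_mul_cancel₀ (norm_ne_zero_iff.2 hne)]
    · rw [map_smul, hPa, map_add, hS]
      have : z + S z - (S z + z) = 0 := by abel
      rw [this, smul_zero, smul_zero]
  obtain ⟨w0, hw0, hw⟩ : ∃ w0 : E, ‖w0‖ = 1 ∧ P w0 = w0 := by
    obtain ⟨z, hz⟩ := hS1
    have hne : z - S z ≠ 0 := fun h => hz (sub_eq_zero.1 h).symm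
    refine ⟨‖z - S z‖⁻¹ • (z - S z), ?_, ?_⟩
    · rw [norm_smul, norm_inv, norm_norm, inv_mul_cancel₀ (norm_ne_zero_iff.2 hne)]
    · rw [map_smul, hPa, map_sub, hS]
      module
  obtain ⟨w, v, U, hPw, hw1, hPv, hv1, hU, hφ, heu⟩ :=
    star2 htr P hP hs hP1 hP2 y0 w0 hy0 hw0 hy hw δ hδ
  have hrS : ∀ z, rfx P hP hs z = S z := fun z => by rw [rfx_apply, hsz]
  have hri : ∀ z, (rfx P hP hs)⁻¹ z = S z := by
    intro z
    have h1 : (rfx P hP hs)⁻¹ = rfx P hP hs := inv_eq_of_mul_eq_one_left (rfx_sq P hP hs)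
    rw [h1, hrS]
  have hUS : ∀ z, S (U (S z)) = U.symm z := by
    intro z
    have h1 := DFunLike.congr_fun hU z
    have h2 : (rfx P hP hs * U * (rfx P hP hs)⁻¹) z = rfx P hP hs (U ((rfx P hP hs)⁻¹ z)) := rfl
    rw [h2, hri, hrS] at h1
    exact h1
  have hSw : S w = w := by
    rw [← hsz, hPw, smul_zero, sub_zero]
  have hSv : S v = -v := by
    rw [← hsz, hPv]
    module
  obtain ⟨T, hT⟩ := htr w e hw1 he
  have hTe : T.symm e = w := by rw [← hT, T.symm_apply_apply]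
  have hpow : ∀ (k : ℕ) (z : E), ((T * U * T⁻¹) ^ k) (T z) = T ((U ^ k) z) := by
    intro k z
    rw [conj_pow]
    show T ((U ^ k) (T.symm (T z))) = _
    rw [T.symm_apply_apply]
  refine ⟨T v, T * U * T⁻¹, T, by rw [T.norm_map, hv1], ?_, ?_, fun z => ?_, fun φ h0 h1 => ?_,
    fun p q => ?_⟩
  · rw [hTe, hSw, hT]
  · rw [T.symm_apply_apply, hSv, map_neg]
  · have h1 : (T * U * T⁻¹) (T (S (T.symm z))) = T (U (S (T.symm z))) := by
      show T (U (T.symm (T (S (T.symm z))))) = _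
      rw [T.symm_apply_apply]
    rw [h1, T.symm_apply_apply, hUS]
    have h2 : (T * U * T⁻¹) (T (U.symm (T.symm z))) = z := by
      show T (U (T.symm (T (U.symm (T.symm z))))) = z
      rw [T.symm_apply_apply, U.apply_symm_apply, T.apply_symm_apply]
    rw [← h2, LinearIsometryEquiv.symm_apply_apply, h2]
  · obtain ⟨k, k1, k2⟩ := hφ φ h0 h1
    refine ⟨k, ?_, ?_⟩
    · rw [← hT, hpow, ← map_smul, ← map_smul, ← map_add, ← map_sub, T.norm_map]
      exact k1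
    · rw [hpow, ← hT, ← map_smul, ← map_smul, ← map_sub, ← map_sub, T.norm_map]
      exact k2
  · have e1 : p • e + q • T v = T (p • w + q • v) := by rw [map_add, map_smul, map_smul, hT]
    rw [e1, T.norm_map]
    exact heu p q

end Pool.Agent.X192.BM
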