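import Pool.Agent.X192.BM.LocPairs

/-!
# A local cover by near-stabilizer orbits excludes null orbits
-/

set_option autoImplicit false
set_option linter.unusedSectionVars false

namespace Pool.Agent.X192.BM

open Pool.H305R3.Rot Pool.TH578.Rot Filter Topology

variable {E : Type} [NormedAddCommGroup E] [NormedSpace ℝ E]

/-- finitely many vectors whose orbits under arbitrarily small near-stabilizers of `x` are
`r / 32`-dense in the part of the unit sphere at distance at most `r` from `x` -/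
def LocalCover (E : Type) [NormedAddCommGroup E] [NormedSpace ℝ E] (x : E) (r : ℝ) : Prop :=
  ∃ F : Finset E, ∀ η : ℝ, 0 < η → ∀ z : E, ‖z‖ = 1 → ‖x - z‖ ≤ r →
    ∃ e ∈ F, ∃ T : E ≃ₗᵢ[ℝ] E, ‖T x - x‖ ≤ η ∧ ‖T e - z‖ ≤ r / 32

/-- the point `(x + s u) / |x + s u|` -/
lemma push_point {x u : E} {s : ℝ} (hx : ‖x‖ = 1) (hu : ‖u‖ = 1) (hs : 0 < s) (hs1 : s ≤ 1 / 2) :
    1 / 2 ≤ ‖x + s • u‖ ∧ ‖x + s • u‖ ≤ 3 / 2 ∧ ‖‖x + s • u‖⁻¹ • (x + s • u)‖ = 1 ∧
      ‖x - ‖x + s • u‖⁻¹ • (x + s • u)‖ ≤ 2 * s := by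
  have hsu : ‖s • u‖ = s := by rw [norm_smul, hu, mul_one, Real.norm_of_nonneg hs.le]
  have h1 : ‖x + s • u‖ ≤ 1 + s := by
    refine (norm_add_le _ _).trans ?_
    rw [hx, hsu]
  have h2 : 1 - s ≤ ‖x + s • u‖ := by
    have := norm_sub_le (x + s • u) (s • u)
    rw [add_sub_cancel_right, hx, hsu] at this
    linarith
  have h0 : 0 < ‖x + s • u‖ := by linarith
  refine ⟨by linarith, by linarith, ?_, ?_⟩
  · rw [norm_smul, norm_inv, norm_norm, inv_mul_cancel₀ h0.ne']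
  · have h3 : x - ‖x + s • u‖⁻¹ • (x + s • u) =
        (1 - ‖x + s • u‖⁻¹) • (x + s • u) - s • u := by
      rw [sub_smul, one_smul]; abel
    rw [h3]
    refine (norm_sub_le _ _).trans ?_
    rw [hsu, norm_smul, Real.norm_eq_abs]
    have h4 : |1 - ‖x + s • u‖⁻¹| * ‖x + s • u‖ = |‖x + s • u‖ - 1| := by
      rw [← abs_of_pos h0, ← abs_mul, sub_mul, one_mul, abs_of_pos h0, inv_mul_cancel₀ h0.ne']
    have h5 : |‖x + s • u‖ - 1| ≤ s := by
      rw [abs_le]; constructor <;> linarith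
    linarith

/-- no null orbits in the dual -/
lemma not_nullDual' {x : E} (hx : ‖x‖ = 1) {r : ℝ} (hr : 0 < r) (hr1 : r ≤ 1)
    (hF : LocalCover E x r) : ¬ NullDual E x := by
  classical
  obtain ⟨F, hF⟩ := hF
  rintro ⟨ψ, η, hψ, hη, hnull⟩
  have h1 : ∀ e : E, ∃ N : ℕ, ∀ n : ℕ, N ≤ n → ∀ T : E ≃ₗᵢ[ℝ] E,
      ‖T x - x‖ ≤ η n → |ψ n (T e)| ≤ r / 32 := fun e => hnull e (r / 32) (by positivity)
  choose N hN using h1
  let n := (insert x F).sup N
  obtain ⟨u, hu, hu2⟩ : ∃ z : E, ‖z‖ = 1 ∧ 3 / 4 < ψ n z := by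
    obtain ⟨z, hz, hz2⟩ : ∃ z : E, ‖z‖ = 1 ∧ 3 / 4 < ‖ψ n z‖ := by
      by_contra h
      push Not at h
      have := ContinuousLinearMap.opNorm_le_of_unit_norm (f := ψ n) (C := 3 / 4) (by norm_num) h
      rw [hψ n] at this
      norm_num at this
    rw [Real.norm_eq_abs] at hz2
    rcases le_total 0 (ψ n z) with h | h
    · exact ⟨z, hz, by rwa [abs_of_nonneg h] at hz2⟩
    · exact ⟨-z, by rwa [norm_neg], by rw [map_neg]; rwa [abs_of_nonpos h] at hz2⟩
  obtain ⟨hp1, hp2, hp3, hp4⟩ := push_point (s := r / 2) hx hu (by positivity) (by linarith)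
  set m : ℝ := ‖x + (r / 2) • u‖ with hm
  obtain ⟨e, he, T, hT1, hT2⟩ := hF (η n) (hη n) _ hp3 (by linarith)
  have h2 := hN e n (Finset.le_sup (Finset.mem_insert_of_mem he)) T hT1
  have h3 : |ψ n x| ≤ r / 32 := by
    have := hN x n (Finset.le_sup (Finset.mem_insert_self _ _)) (LinearIsometryEquiv.refl ℝ E)
      (by simpa using (hη n).le)
    simpa using this
  have hm0 : 0 < m := by linarith
  have h4 : ψ n (m⁻¹ • (x + (r / 2) • u)) = m⁻¹ * (ψ n x + r / 2 * ψ n u) := by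
    rw [map_smul, map_add, map_smul, smul_eq_mul, smul_eq_mul]
  have h5 : |ψ n (T e) - ψ n (m⁻¹ • (x + (r / 2) • u))| ≤ r / 32 := by
    rw [← map_sub, ← Real.norm_eq_abs]
    refine ((ψ n).le_opNorm _).trans ?_
    rw [hψ n, one_mul]
    exact hT2
  have h6 : ψ n (m⁻¹ • (x + (r / 2) • u)) ≤ r / 16 := by
    have := (abs_le.1 h5).1
    have := (abs_le.1 h2).2
    linarith
  rw [h4, inv_mul_le_iff₀ hm0] at h6
  have h7 := (abs_le.1 h3).1
  have h8 : r / 2 * (3 / 4) < r / 2 * ψ n u := mul_lt_mul_of_pos_left hu2 (by positivity)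
  have h9 : m * (r / 16) ≤ 3 / 2 * (r / 16) := mul_le_mul_of_nonneg_right hp2 (by positivity)
  linarith

/-- no null orbits in the space -/
lemma not_nullVec' {x : E} (hx : ‖x‖ = 1) {r : ℝ} (hr : 0 < r) (hr1 : r ≤ 1)
    (hF : LocalCover E x r) : ¬ NullVec E x := by
  classical
  obtain ⟨F, hF⟩ := hF
  rintro ⟨u, η, hu, hη, hnull⟩
  have h0 : ∀ v : E, ∃ g : StrongDual ℝ E, ‖g‖ ≤ 1 ∧ g v = ‖v‖ := by
    intro e
    obtain ⟨g, hg1, hg2⟩ := exists_dual_vector'' ℝ e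
    exact ⟨g, hg1, by simpa using hg2⟩
  choose g hg1 hg2 using h0
  have h1 : ∀ v : E, ∃ N : ℕ, ∀ n : ℕ, N ≤ n → ∀ T : E ≃ₗᵢ[ℝ] E,
      ‖T x - x‖ ≤ η n → |g v (T (u n))| ≤ 1 / 16 := fun v => hnull (g v) (1 / 16) (by norm_num)
  choose N hN using h1
  -- discretized multiples
  set M : ℕ := ⌈64 / r * (1 + ∑ e ∈ F, ‖e‖)⌉₊ with hM
  have hsum0 : 0 ≤ ∑ e ∈ F, ‖e‖ := Finset.sum_nonneg fun _ _ => norm_nonneg _
  have hMpos : 0 < 64 / r * (1 + ∑ e ∈ F, ‖e‖) := by positivity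
  have hM1 : 64 / r * (1 + ∑ e ∈ F, ‖e‖) ≤ M := Nat.le_ceil _
  have hM0 : (0 : ℝ) < M := hMpos.trans_le hM1
  let W : Finset E := (F ×ˢ Finset.range (2 * M + 1)).image
    (fun p => ((p.2 : ℝ) / M) • p.1 - x)
  let n := W.sup N
  obtain ⟨hp1, hp2, hp3, hp4⟩ := push_point (s := r / 2) hx (hu n) (by positivity) (by linarith)
  set m : ℝ := ‖x + (r / 2) • u n‖ with hm
  have hm0 : 0 < m := by linarith
  obtain ⟨e, he, T, hT1, hT2⟩ := hF (min (η n) (r / 64)) (lt_min (hη n) (by positivity)) _ hp3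
    (by linarith)
  have hTs : ‖T.symm x - x‖ ≤ min (η n) (r / 64) := by
    have : T.symm x - x = T.symm (x - T x) := by rw [map_sub, T.symm_apply_apply]
    rw [this, T.symm.norm_map, norm_sub_rev]; exact hT1
  -- the discretized value of `m`
  set j : ℕ := ⌊m * M⌋₊ with hj
  have hj1 : (j : ℝ) ≤ m * M := Nat.floor_le (by positivity)
  have hj2 : m * M < j + 1 := Nat.lt_floor_add_one _
  have hjW : j ∈ Finset.range (2 * M + 1) := by
    rw [Finset.mem_range]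
    have : (j : ℝ) < (2 * M + 1 : ℕ) := by
      push_cast
      nlinarith
    exact_mod_cast this
  set v : E := ((j : ℝ) / M) • e - x with hv
  have hvW : v ∈ W := Finset.mem_image.2 ⟨(e, j), Finset.mem_product.2 ⟨he, hjW⟩, rfl⟩
  have h2 := hN v n (Finset.le_sup hvW) T.symm (hTs.trans (min_le_left _ _))
  -- `m • e - x` is close to `(r / 2) • T⁻¹ u`
  have h3 : ‖m • e - T.symm x - (r / 2) • T.symm (u n)‖ ≤ 3 / 2 * (r / 32) := by
    have e1 : m • e - T.symm x - (r / 2) • T.symm (u n) =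
        m • T.symm (T e - m⁻¹ • (x + (r / 2) • u n)) := by
      rw [map_sub, map_smul, map_add, map_smul, T.symm_apply_apply, smul_sub,
        smul_inv_smul₀ hm0.ne']
      abel
    rw [e1, norm_smul, T.symm.norm_map, Real.norm_of_nonneg hm0.le]
    exact mul_le_mul hp2 hT2 (norm_nonneg _) (by norm_num)
  have hen : ‖e‖ ≤ ∑ e ∈ F, ‖e‖ := Finset.single_le_sum (f := fun e => ‖e‖)
    (fun _ _ => norm_nonneg _) he
  have h4 : ‖((j : ℝ) / M) • e - m • e‖ ≤ r / 64 := by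
    rw [← sub_smul, norm_smul, Real.norm_eq_abs]
    have h5 : |(j : ℝ) / M - m| ≤ 1 / M := by
      have : (j : ℝ) / M - m = (j - m * M) / M := by field_simp
      rw [this, abs_div, abs_of_pos hM0]
      apply div_le_div_of_nonneg_right _ hM0.le
      rw [abs_le]; constructor <;> linarith
    calc |(j : ℝ) / M - m| * ‖e‖ ≤ 1 / M * (1 + ∑ e ∈ F, ‖e‖) :=
          mul_le_mul h5 (by linarith) (norm_nonneg _) (by positivity)
      _ ≤ r / 64 := by
          rw [one_div, inv_mul_le_iff₀ hM0]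
          have h6 : r / 64 * (64 / r * (1 + ∑ e ∈ F, ‖e‖)) ≤ r / 64 * M :=
            mul_le_mul_of_nonneg_left hM1 (by positivity)
          have h7 : r / 64 * (64 / r * (1 + ∑ e ∈ F, ‖e‖)) = 1 + ∑ e ∈ F, ‖e‖ := by
            field_simp
          rw [h7] at h6
          linarith
  have h5 : ‖v - (r / 2) • T.symm (u n)‖ ≤ r / 64 + 3 / 2 * (r / 32) + r / 64 := by
    have e1 : v - (r / 2) • T.symm (u n) = (((j : ℝ) / M) • e - m • e) +
        (m • e - T.symm x - (r / 2) • T.symm (u n)) + (T.symm x - x) := by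
      rw [hv]; abel
    rw [e1]
    refine (norm_add₃_le).trans ?_
    have := hTs.trans (min_le_right _ _)
    linarith
  have h6 : ‖v‖ ≤ r / 2 * (1 / 16) + (r / 64 + 3 / 2 * (r / 32) + r / 64) := by
    have key : ∀ (G : StrongDual ℝ E) (a b : E), G a = r / 2 * G b + G (a - (r / 2) • b) := by
      intro G a b
      rw [map_sub, map_smul, smul_eq_mul]; ring
    have e1 := key (g v) v (T.symm (u n))
    have e2 : g v (v - (r / 2) • T.symm (u n)) ≤ r / 64 + 3 / 2 * (r / 32) + r / 64 := by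
      refine (le_abs_self _).trans ?_
      rw [← Real.norm_eq_abs]
      refine ((g v).le_opNorm _).trans ?_
      calc ‖g v‖ * ‖v - (r / 2) • T.symm (u n)‖ ≤ 1 * ‖v - (r / 2) • T.symm (u n)‖ :=
            mul_le_mul_of_nonneg_right (hg1 v) (norm_nonneg _)
        _ ≤ _ := by rw [one_mul]; exact h5
    have e3 : r / 2 * g v (T.symm (u n)) ≤ r / 2 * (1 / 16) :=
      mul_le_mul_of_nonneg_left ((le_abs_self _).trans h2) (by positivity)
    rw [← hg2 v, e1]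
    linarith
  have h7 : r / 2 ≤ ‖v‖ + (r / 64 + 3 / 2 * (r / 32) + r / 64) := by
    have e1 : ‖(r / 2) • T.symm (u n)‖ = r / 2 := by
      rw [norm_smul, T.symm.norm_map, hu, mul_one, Real.norm_of_nonneg (by positivity)]
    have e2 := norm_sub_norm_le ((r / 2) • T.symm (u n)) v
    rw [e1, norm_sub_rev ((r / 2) • T.symm (u n)) v] at e2
    linarith
  linarith

/-- a neighbourhood of `1` in the isometry group (strong operator topology) is Roelcke
precompact: for every neighbourhood `V` of `1` it is contained in `V Q V` with `Q` finite -/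
def LocallyRoelckePrecompact (E : Type) [NormedAddCommGroup E] [NormedSpace ℝ E] : Prop :=
  ∃ (m : ℕ) (e : Fin m → E) (ρ : ℝ), 0 < ρ ∧
    ∀ (k : ℕ) (f : Fin k → E) (ε : ℝ), 0 < ε → ∃ Q : Set (E ≃ₗᵢ[ℝ] E), Q.Finite ∧
      ∀ T : E ≃ₗᵢ[ℝ] E, (∀ i, ‖T (e i) - e i‖ < ρ) →
        ∃ V V' : E ≃ₗᵢ[ℝ] E, ∃ q ∈ Q, (∀ i, ‖V (f i) - f i‖ < ε) ∧
          (∀ i, ‖V' (f i) - f i‖ < ε) ∧ T = V * q * V'

/-- a locally Roelcke precompact isometry group of a transitive norm has locally compact spaces of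
pair orbits -/
lemma localPairs_of_lrp [CompleteSpace E] [TopologicalSpace.SeparableSpace E]
    (htr : ∀ x y : E, ‖x‖ = 1 → ‖y‖ = 1 → ∃ T : E ≃ₗᵢ[ℝ] E, T x = y) {x₀ : E} (hx₀ : ‖x₀‖ = 1)
    (h : LocallyRoelckePrecompact E) : ∃ r : ℝ, 0 < r ∧ LocalPairs E r := by
  classical
  obtain ⟨m, e, ρ, hρ, h⟩ := h
  obtain ⟨t, ht, hopen⟩ := near_open htr e x₀ hx₀ (κ := ρ / 2) (by positivity)
  refine ⟨t, ht, fun ε hε => ?_⟩
  obtain ⟨Q, hQf, hQ⟩ := h 1 (fun _ => x₀) (ε / 4) (by positivity)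
  refine ⟨hQf.toFinset.image (fun q => (x₀, q x₀)), fun x z hx hz hxz => ?_⟩
  obtain ⟨S, hS⟩ := htr x x₀ hx hx₀
  have hy : ‖S z - x₀‖ ≤ t := by
    rw [← hS, ← map_sub, S.norm_map, norm_sub_rev]; exact hxz
  obtain ⟨T, hT1, hT2⟩ := hopen (S z) (by rw [S.norm_map, hz]) hy (ε / 2) (by positivity)
  obtain ⟨V, V', q, hq, hV, hV', rfl⟩ := hQ T (fun i => (hT2 i).trans_lt (by linarith))
  refine ⟨(x₀, q x₀), Finset.mem_image.2 ⟨q, by simpa using hq, rfl⟩, S.trans V.symm, ?_, ?_⟩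
  · show ‖V.symm (S x) - x₀‖ ≤ ε
    rw [hS]
    have h1 : V.symm x₀ - x₀ = V.symm (x₀ - V x₀) := by rw [map_sub, V.symm_apply_apply]
    rw [h1, V.symm.norm_map, norm_sub_rev]
    have := hV 0
    linarith
  · show ‖V.symm (S z) - q x₀‖ ≤ ε
    have h0 : (V * q * V') x₀ = V (q (V' x₀)) := rfl
    have h1 : V.symm (S z) - q x₀ = - V.symm ((V * q * V') x₀ - S z) + q (V' x₀ - x₀) := by
      rw [h0, map_sub, V.symm_apply_apply, map_sub]
      abel
    rw [h1]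
    refine (norm_add_le _ _).trans ?_
    rw [norm_neg, V.symm.norm_map, q.norm_map]
    have := hV' 0
    linarith

end Pool.Agent.X192.BM
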