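import Pool.Agent.TH578.Rot.Pairs
import Pool.Agent.H305R3.Rot.Amen

/-!
# Locally compact spaces of pair orbits
-/

set_option autoImplicit false
set_option linter.unusedSectionVars false

namespace Pool.Agent.X192.BM

open Pool.H305R3.Rot Pool.TH578.Rot Filter Topology

/-- the pairs of unit vectors at distance at most `r` form a totally bounded space modulo
isometries: up to every `ε` there are only finitely many -/
def LocalPairs (E : Type) [NormedAddCommGroup E] [NormedSpace ℝ E] (r : ℝ) : Prop :=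
  ∀ ε : ℝ, 0 < ε → ∃ P : Finset (E × E), ∀ x z : E, ‖x‖ = 1 → ‖z‖ = 1 → ‖x - z‖ ≤ r →
    ∃ p ∈ P, ∃ T : E ≃ₗᵢ[ℝ] E, ‖T x - p.1‖ ≤ ε ∧ ‖T z - p.2‖ ≤ ε

variable {E : Type} [NormedAddCommGroup E] [NormedSpace ℝ E]

lemma totally' {r : ℝ} (hP : LocalPairs E r) (x : E) (hx : ‖x‖ = 1) {ε : ℝ} (hε : 0 < ε) :
    ∃ F : Finset E, (∀ f ∈ F, ‖f‖ = 1) ∧ ∀ z : E, ‖z‖ = 1 → ‖x - z‖ ≤ r →
      ∃ f ∈ F, Rl x ε z f := by
  classical
  obtain ⟨P, hP⟩ := hP (ε / 2) (by positivity)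
  have key : ∀ p : E × E, ∃ f : E, ‖f‖ = 1 ∧ ∀ z : E, ‖z‖ = 1 →
      (∃ T : E ≃ₗᵢ[ℝ] E, ‖T x - p.1‖ ≤ ε / 2 ∧ ‖T z - p.2‖ ≤ ε / 2) → Rl x ε z f := by
    intro p
    by_cases h : ∃ f : E, ‖f‖ = 1 ∧
        ∃ T : E ≃ₗᵢ[ℝ] E, ‖T x - p.1‖ ≤ ε / 2 ∧ ‖T f - p.2‖ ≤ ε / 2
    · obtain ⟨f, hf, S, hS1, hS2⟩ := h
      refine ⟨f, hf, fun z hz ⟨T, hT1, hT2⟩ => ⟨T.trans S.symm, ?_, ?_⟩⟩
      · rw [LinearIsometryEquiv.trans_apply]
        have : S.symm (T x) - x = S.symm ((T x - p.1) - (S x - p.1)) := by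
          rw [sub_sub_sub_cancel_right, map_sub, S.symm_apply_apply]
        rw [this, S.symm.norm_map]
        refine (norm_sub_le _ _).trans ?_
        linarith
      · rw [LinearIsometryEquiv.trans_apply]
        have : S.symm (T z) - f = S.symm ((T z - p.2) - (S f - p.2)) := by
          rw [sub_sub_sub_cancel_right, map_sub, S.symm_apply_apply]
        rw [this, S.symm.norm_map]
        refine (norm_sub_le _ _).trans ?_
        linarith
    · refine ⟨x, hx, fun z hz ⟨T, hT1, hT2⟩ => absurd ⟨z, hz, T, hT1, hT2⟩ h⟩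
  choose g hg1 hg2 using key
  refine ⟨P.image g, fun f hf => ?_, fun z hz hzr => ?_⟩
  · obtain ⟨p, -, rfl⟩ := Finset.mem_image.1 hf
    exact hg1 p
  · obtain ⟨p, hp, T, hT⟩ := hP x z hx hz hzr
    exact ⟨g p, Finset.mem_image_of_mem g hp, hg2 p z hz ⟨T, hT⟩⟩

/-- the local form of `Pool.TH578.Rot.cover` -/
theorem cover' [CompleteSpace E] [TopologicalSpace.SeparableSpace E]
    (htr : ∀ x y : E, ‖x‖ = 1 → ‖y‖ = 1 → ∃ T : E ≃ₗᵢ[ℝ] E, T x = y) {r : ℝ}
    (hP : LocalPairs E r) (x : E) (hx : ‖x‖ = 1) {κ : ℝ} (hκ : 0 < κ) :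
    ∃ F : Finset E, ∀ η : ℝ, 0 < η → ∀ z : E, ‖z‖ = 1 → ‖x - z‖ ≤ r →
      ∃ e ∈ F, ∃ T : E ≃ₗᵢ[ℝ] E, ‖T x - x‖ ≤ η ∧ ‖T e - z‖ ≤ κ := by
  classical
  -- the radius attached to `e`
  have key : ∀ e : E, ∃ ρ : ℝ, 0 < ρ ∧ ∀ z : E, Rl x ρ z e → ∀ η : ℝ, 0 < η →
      ∃ T : E ≃ₗᵢ[ℝ] E, ‖T x - x‖ ≤ η ∧ ‖T e - z‖ ≤ κ := by
    intro e
    obtain ⟨t, ht, hopen⟩ := near_open htr (fun _ : Unit => e) x hx (κ := κ / 2) (by positivity)
    refine ⟨min (κ / 2) t, lt_min (by positivity) ht, ?_⟩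
    rintro z ⟨T, hT1, hT2⟩ η hη
    obtain ⟨S, hS1, hS2⟩ := hopen (T x) (by rw [T.norm_map, hx]) (hT1.trans (min_le_right _ _)) η hη
    refine ⟨S.trans T.symm, ?_, ?_⟩
    · rw [LinearIsometryEquiv.trans_apply]
      have : T.symm (S x) - x = T.symm (S x - T x) := by rw [map_sub, T.symm_apply_apply]
      rw [this, T.symm.norm_map]; exact hS1
    · rw [LinearIsometryEquiv.trans_apply]
      have : T.symm (S e) - z = T.symm ((S e - e) - (T z - e)) := by
        rw [sub_sub_sub_cancel_right, map_sub, T.symm_apply_apply]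
      rw [this, T.symm.norm_map]
      refine (norm_sub_le _ _).trans ?_
      have h1 := hS2 ()
      have h2 := hT2.trans (min_le_left (κ / 2) t)
      linarith
  choose ρ hρ0 hρ using key
  by_contra hcon
  -- no finite set covers
  have hno : ∀ F : Finset E, ∃ z : E, (‖z‖ = 1 ∧ ‖x - z‖ ≤ r) ∧ ∀ e ∈ F, ¬ Rl x (ρ e) z e := by
    intro F
    by_contra h
    push Not at h
    apply hcon
    refine ⟨F, fun η hη z hz hzr => ?_⟩
    obtain ⟨e, he, hR⟩ := h z ⟨hz, hzr⟩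
    exact ⟨e, he, hρ e z hR η hη⟩
  let S := {z : E // ‖z‖ = 1 ∧ ‖x - z‖ ≤ r}
  let U : E → Set S := fun e => {z | ¬ Rl x (ρ e) (z : E) e}
  have hne : (Filter.generate (Set.range U)).NeBot := by
    rw [Filter.generate_neBot_iff]
    intro t ht htf
    have : ∃ F : Finset E, t ⊆ U '' (F : Set E) := by
      obtain ⟨s', hs1, hs2⟩ := (Set.exists_subset_image_finite_and (f := U) (s := Set.univ)
        (p := fun t' => t ⊆ t')).1 ⟨t, by rw [Set.image_univ]; exact ht, htf, le_refl _⟩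
      exact ⟨hs2.1.toFinset, by simpa using hs2.2⟩
    obtain ⟨F, hF⟩ := this
    obtain ⟨z, hz, hz2⟩ := hno F
    refine ⟨⟨z, hz⟩, ?_⟩
    rw [Set.mem_sInter]
    intro A hA
    obtain ⟨e, he, rfl⟩ := hF hA
    exact hz2 e (by simpa using he)
  let 𝓤 : Ultrafilter S := @Ultrafilter.of _ (Filter.generate (Set.range U)) hne
  have hUmem : ∀ e : E, U e ∈ 𝓤 := by
    intro e
    have h1 : U e ∈ Filter.generate (Set.range U) :=
      Filter.mem_generate_of_mem (Set.mem_range_self e)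
    exact (@Ultrafilter.of_le _ (Filter.generate (Set.range U)) hne) h1
  -- small balls in the ultrafilter
  have hball : ∀ k : ℕ, ∃ f : E, ‖f‖ = 1 ∧ {z : S | Rl x ((1 / 2) ^ k) (z : E) f} ∈ 𝓤 := by
    intro k
    obtain ⟨F, hF1, hF2⟩ := totally' hP x hx (ε := (1 / 2) ^ k) (by positivity)
    have h1 : (⋃ f ∈ (F : Set E), {z : S | Rl x ((1 / 2) ^ k) (z : E) f}) ∈ 𝓤 := by
      have : (⋃ f ∈ (F : Set E), {z : S | Rl x ((1 / 2) ^ k) (z : E) f}) = Set.univ := by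
        rw [Set.eq_univ_iff_forall]
        intro z
        obtain ⟨f, hf, hR⟩ := hF2 (z : E) z.2.1 z.2.2
        exact Set.mem_biUnion (by simpa using hf) hR
      rw [this]
      exact Filter.univ_mem
    obtain ⟨f, hf, h2⟩ := (Ultrafilter.finite_biUnion_mem_iff F.finite_toSet).1 h1
    exact ⟨f, hF1 f (by simpa using hf), h2⟩
  choose f hf1 hf2 using hball
  have hstep : ∀ k : ℕ, ∃ T : E ≃ₗᵢ[ℝ] E, ‖T x - x‖ ≤ 2 * (1 / 2) ^ k ∧
      ‖T (f k) - f (k + 1)‖ ≤ 2 * (1 / 2) ^ k := by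
    intro k
    obtain ⟨z, hz1, hz2⟩ := Filter.nonempty_of_mem (Filter.inter_mem (hf2 k) (hf2 (k + 1)))
    have h := Rl.trans (Rl.symm hz1) hz2
    obtain ⟨T, h1, h2⟩ := h.mono (δ := 2 * (1 / 2) ^ k) (by
      have : ((1 : ℝ) / 2) ^ (k + 1) ≤ (1 / 2) ^ k :=
        pow_le_pow_of_le_one (by norm_num) (by norm_num) (Nat.le_succ k)
      linarith)
    exact ⟨T, h1, h2⟩
  choose T hT1 hT2 using hstep
  let P : ℕ → (E ≃ₗᵢ[ℝ] E) := fun n =>
    Nat.rec (LinearIsometryEquiv.refl ℝ E) (fun k Q => Q.trans (T k)) n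
  have hPs : ∀ k, P (k + 1) = (P k).trans (T k) := fun k => rfl
  let w : ℕ → E := fun k => (P k).symm (f k)
  let y : ℕ → E := fun k => (P k).symm x
  have hw : CauchySeq w := by
    refine cauchySeq_of_le_geometric (1 / 2) 2 (by norm_num) (fun k => ?_)
    have h1 : w (k + 1) = (P k).symm ((T k).symm (f (k + 1))) := by
      show (P (k + 1)).symm (f (k + 1)) = _
      rw [hPs]; rfl
    have h2 : w k - w (k + 1) = (P k).symm ((T k).symm ((T k) (f k) - f (k + 1))) := by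
      rw [h1, map_sub, map_sub, (T k).symm_apply_apply]
    rw [dist_eq_norm, h2, LinearIsometryEquiv.norm_map, LinearIsometryEquiv.norm_map]
    exact hT2 k
  have hy : CauchySeq y := by
    refine cauchySeq_of_le_geometric (1 / 2) 2 (by norm_num) (fun k => ?_)
    have h1 : y (k + 1) = (P k).symm ((T k).symm x) := by
      show (P (k + 1)).symm x = _
      rw [hPs]; rfl
    have h2 : y k - y (k + 1) = (P k).symm ((T k).symm ((T k) x - x)) := by
      rw [h1, map_sub, map_sub, (T k).symm_apply_apply]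
    rw [dist_eq_norm, h2, LinearIsometryEquiv.norm_map, LinearIsometryEquiv.norm_map]
    exact hT1 k
  obtain ⟨w0, hw0⟩ := cauchySeq_tendsto_of_complete hw
  obtain ⟨y0, hy0⟩ := cauchySeq_tendsto_of_complete hy
  have hw1 : ‖w0‖ = 1 := by
    refine tendsto_nhds_unique hw0.norm ?_
    have : (fun k => ‖w k‖) = fun _ => (1 : ℝ) := by
      funext k
      show ‖(P k).symm (f k)‖ = 1
      rw [LinearIsometryEquiv.norm_map, hf1]
    rw [this]
    exact tendsto_const_nhds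
  have hy1 : ‖y0‖ = 1 := by
    refine tendsto_nhds_unique hy0.norm ?_
    have : (fun k => ‖y k‖) = fun _ => (1 : ℝ) := by
      funext k
      show ‖(P k).symm x‖ = 1
      rw [LinearIsometryEquiv.norm_map, hx]
    rw [this]
    exact tendsto_const_nhds
  obtain ⟨Q, hQ⟩ := htr y0 x hy1 hx
  let e : E := Q w0
  -- choose `k`
  have hρe : 0 < ρ (Q w0) := hρ0 _
  have h1 : ∀ᶠ k in atTop, ‖w k - w0‖ < ρ (Q w0) / 2 := by
    have := (tendsto_iff_norm_sub_tendsto_zero.1 hw0)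
    exact this.eventually (gt_mem_nhds (by positivity))
  have h2 : ∀ᶠ k in atTop, ‖y k - y0‖ < ρ (Q w0) / 2 := by
    have := (tendsto_iff_norm_sub_tendsto_zero.1 hy0)
    exact this.eventually (gt_mem_nhds (by positivity))
  have h3 : ∀ᶠ k : ℕ in atTop, ((1 : ℝ) / 2) ^ k < ρ (Q w0) / 2 := by
    have := tendsto_pow_atTop_nhds_zero_of_lt_one (r := (1 : ℝ) / 2) (by norm_num) (by norm_num)
    exact this.eventually (gt_mem_nhds (by positivity))
  obtain ⟨k, hk1, hk2, hk3⟩ := (h1.and (h2.and h3)).exists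
  have hR : Rl x (ρ (Q w0) / 2) (f k) (Q w0) := by
    refine ⟨(P k).symm.trans Q, ?_, ?_⟩
    · rw [LinearIsometryEquiv.trans_apply]
      have : Q ((P k).symm x) - x = Q (y k - y0) := by
        show Q (y k) - x = _
        rw [map_sub, hQ]
      rw [this, Q.norm_map]
      exact hk2.le
    · rw [LinearIsometryEquiv.trans_apply]
      have : Q ((P k).symm (f k)) - Q w0 = Q (w k - w0) := by
        show Q (w k) - Q w0 = _
        rw [map_sub]
      rw [this, Q.norm_map]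
      exact hk1.le
  have h4 : {z : S | Rl x ((1 / 2) ^ k) (z : E) (f k)} ⊆ (U e)ᶜ := by
    intro z hz
    simp only [U, e, Set.mem_compl_iff, Set.mem_ofPred_eq, not_not]
    exact (Rl.trans hz hR).mono (by linarith)
  have h5 : (U e)ᶜ ∈ 𝓤 := Filter.mem_of_superset (hf2 k) h4
  have h6 := Filter.inter_mem (hUmem e) h5
  rw [Set.inter_compl_self] at h6
  exact 𝓤.empty_notMem h6


end Pool.Agent.X192.BM
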