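import Pool.Agent.X192.BM.Range

/-! # Banach-Mazur rotation problem: second order bounds along a dense Hilbert range -/

set_option autoImplicit false

namespace Pool.Agent.X192.BM

open Set Filter Topology
open Pool.Agent.Y278.Rot

variable {E : Type} [NormedAddCommGroup E] [NormedSpace ℝ E]

/-- the quadratic lower bound of the dual norm -/
lemma dual_bound {x : E} {f : E →L[ℝ] ℝ} (hfx : f x = 1) {φ : E →L[ℝ] ℝ} (hφ : ‖φ‖ ≤ 1)
    (hx : ‖x‖ = 1) {w : E} (hw : ‖w‖ ≤ 1) (hfw : f w = 0)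
    (hb : ∀ s : ℝ, |s| ≤ 1 → ‖x + s • w‖ ≤ 1 + s ^ 2) :
    1 + φ x + (φ w) ^ 2 / 9 ≤ ‖f + φ‖ := by
  have hb1 : |φ w| ≤ 1 := by
    have h := φ.le_opNorm w
    rw [Real.norm_eq_abs] at h
    calc |φ w| ≤ ‖φ‖ * ‖w‖ := h
      _ ≤ 1 * 1 := by gcongr
      _ = 1 := one_mul 1
  have hx1 : |φ x| ≤ 1 := by
    have h := φ.le_opNorm x
    rw [Real.norm_eq_abs, hx, mul_one] at h
    linarith
  set b := φ w with hbdef
  have hs : |b / 4| ≤ 1 := by
    rw [abs_div, abs_of_pos (by norm_num : (0 : ℝ) < 4)]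
    linarith
  have h1 := hb (b / 4) hs
  have h2 := (f + φ).le_opNorm (x + (b / 4) • w)
  have h3 : (f + φ) (x + (b / 4) • w) = 1 + φ x + b ^ 2 / 4 := by
    simp only [map_add, map_smul, add_apply, hfx, hfw, smul_eq_mul, ← hbdef]
    ring
  rw [h3, Real.norm_eq_abs] at h2
  have h4 := le_abs_self (1 + φ x + b ^ 2 / 4)
  have h5 : 1 + φ x + b ^ 2 / 4 ≤ ‖f + φ‖ * (1 + (b / 4) ^ 2) :=
    h4.trans (h2.trans (mul_le_mul_of_nonneg_left h1 (norm_nonneg _)))
  obtain ⟨hxa, hxb⟩ := abs_le.1 hx1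
  have hb2 : b ^ 2 ≤ 1 := by
    rw [← sq_abs]
    nlinarith [abs_nonneg b]
  have hb0 : 0 ≤ b ^ 2 := sq_nonneg b
  have h6 : (1 + φ x + b ^ 2 / 9) * (1 + (b / 4) ^ 2) ≤ 1 + φ x + b ^ 2 / 4 := by
    nlinarith
  have h7 : 0 < 1 + (b / 4) ^ 2 := by positivity
  exact le_of_mul_le_mul_right (h6.trans h5) h7

theorem main (E : Type) [NormedAddCommGroup E] [NormedSpace ℝ E] [CompleteSpace E]
    [TopologicalSpace.SeparableSpace E]
    (hG : ∀ x y : E, ‖x‖ = 1 → ‖y‖ = 1 → ∃ T : E ≃ₗᵢ[ℝ] E, T x = y) :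
    ∃ (j : Hs →L[ℝ] E) (A : Hs →L[ℝ] Hs →L[ℝ] ℝ),
      DenseRange j ∧ IsCompactOperator j ∧ (∀ g h, A g h = A h g) ∧
      (∀ h, 0 ≤ A h h ∧ A h h ≤ ‖h‖ ^ 2) ∧
      ∀ x : E, ‖x‖ = 1 → ∃ (T : E ≃ₗᵢ[ℝ] E) (f : E →L[ℝ] ℝ), ‖f‖ = 1 ∧ f x = 1 ∧
        (∀ h, ‖x + T (j h)‖ ≤ 1 + f (T (j h)) + ‖h‖ ^ 2) ∧
        (∀ h, Tendsto (fun t : ℝ => (‖x + t • T (j h)‖ - 1 - t * f (T (j h))) / t ^ 2)
          (𝓝[≠] 0) (𝓝 (A h h))) ∧
        (∀ φ : E →L[ℝ] ℝ, ‖φ‖ ≤ 1 → ∀ h, ‖h‖ ≤ 1 → f (T (j h)) = 0 →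
          1 + φ x + (φ (T (j h))) ^ 2 / 9 ≤ ‖f + φ‖) ∧
        ∀ φ : E →L[ℝ] ℝ, (∀ c : ℝ, φ ≠ c • f) →
          ∃ h, ‖h‖ ≤ 1 ∧ f (T (j h)) = 0 ∧ φ (T (j h)) ≠ 0 := by
  by_cases hex : ∃ x0 : E, ‖x0‖ = 1
  swap
  · have h0 : ∀ v : E, v = 0 := by
      intro v
      by_contra hv
      apply hex
      refine ⟨‖v‖⁻¹ • v, ?_⟩
      rw [norm_smul, norm_inv, norm_norm, inv_mul_cancel₀ (norm_ne_zero_iff.2 hv)]
    refine ⟨0, 0, fun v => ?_, isCompactOperator_zero, fun _ _ => rfl, fun h => ?_, fun x hx =>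
      absurd ⟨x, hx⟩ hex⟩
    · rw [h0 v]
      exact subset_closure ⟨0, rfl⟩
    · simp
  obtain ⟨x0, hx0⟩ := hex
  have : Nonempty E := ⟨x0⟩
  obtain ⟨T0, f, V, B, hf, hV, hE⟩ := transitive_expand hG (TopologicalSpace.denseSeq E) hx0
  set u : ℕ → E := fun n => T0 (TopologicalSpace.denseSeq E n) with hu
  have hC : ∀ n, ∃ C : ℝ, 0 < C ∧ Bd x0 f (u n) C := fun n =>
    Bd_of_Lm hf (hE.2 ⟨u n, hV n⟩)
  choose C hC0 hCB using hC
  set c : ℕ → ℝ := fun n => (1 / 2 : ℝ) ^ (n + 1) / (1 + ‖u n‖ + C n) with hc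
  have hc0 : ∀ n, 0 < c n := fun n => by
    have := hC0 n
    positivity
  set a : ℕ → E := fun n => c n • u n with ha
  have haV : ∀ n, a n ∈ V := fun n => V.smul_mem _ (hV n)
  have han : ∀ n, ‖a n‖ ≤ (1 / 2 : ℝ) ^ (n + 1) := by
    intro n
    have h1 := hC0 n
    have h2 : 0 < 1 + ‖u n‖ + C n := by positivity
    simp only [ha]
    rw [norm_smul, Real.norm_of_nonneg (hc0 n).le]
    simp only [hc]
    rw [div_mul_eq_mul_div, div_le_iff₀ h2]
    gcongr
    linarith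
  have haB : ∀ n, Bd x0 f (a n) ((1 / 2 : ℝ) ^ (n + 1)) := by
    intro n
    have h1 := hC0 n
    have h2 : 0 < 1 + ‖u n‖ + C n := by positivity
    refine Bd_mono (Bd_smul (hCB n) (c n)) (by positivity) ?_
    rw [abs_of_pos (hc0 n)]
    simp only [hc]
    rw [div_mul_eq_mul_div, div_le_iff₀ h2]
    gcongr
    have := norm_nonneg (u n)
    linarith
  obtain ⟨j, hj, hjc⟩ := exists_op a han
  obtain ⟨A, hA1, hA2, hA3⟩ := form_range hf hj haB haV hE
  have hdense : DenseRange j := by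
    have h1 : DenseRange u :=
      T0.toHomeomorph.surjective.denseRange.comp (TopologicalSpace.denseRange_denseSeq E)
        T0.continuous
    refine h1.mono ?_
    rintro _ ⟨n, rfl⟩
    refine ⟨(c n)⁻¹ • lp.single 2 n 1, ?_⟩
    rw [map_smul, single_apply_op hj, one_smul]
    simp only [ha]
    rw [smul_smul, inv_mul_cancel₀ (hc0 n).ne', one_smul]
  refine ⟨j, A, hdense, hjc, hA1, hA2, fun x hx => ?_⟩
  obtain ⟨S, hS⟩ := hG x0 x hx0 hx
  let g : E →L[ℝ] ℝ := f.comp (S.symm : E →L[ℝ] E)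
  have hgS : ∀ v, g (S v) = f v := fun v => by
    show f (S.symm (S v)) = f v
    rw [S.symm_apply_apply]
  have hbd : ∀ h, ‖x + S (j h)‖ ≤ 1 + g (S (j h)) + ‖h‖ ^ 2 := by
    intro h
    have h1 := Bd_range hj haB h 1 one_ne_zero
    unfold ph at h1
    rw [one_smul, one_mul, one_pow, div_one, hx0] at h1
    rw [hgS, ← hS, ← map_add, S.norm_map]
    linarith
  have hgn : ‖g‖ = 1 := by
    apply le_antisymm
    · refine ContinuousLinearMap.opNorm_le_bound _ zero_le_one fun v => ?_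
      have h1 := f.le_opNorm (S.symm v)
      rw [hf.1, S.symm.norm_map] at h1
      exact h1
    · have h1 := g.le_opNorm x
      rw [hx, mul_one, ← hS, hgS, hf.2, hx0] at h1
      simpa using h1
  have hjn : ∀ h, ‖j h‖ ≤ ‖h‖ := by
    intro h
    have := tsum_of_norm_bounded (f := fun n => h n • a n) (geo_hasSum.mul_left ‖h‖) (fun n => by
      rw [norm_smul, Real.norm_eq_abs]
      exact mul_le_mul (coord_le h n) (han n) (norm_nonneg _) (norm_nonneg _))
    rw [(hj h).tsum_eq, mul_one] at this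
    exact this
  refine ⟨S, g, hgn, by rw [← hS, hgS, hf.2, hx0], hbd, fun h => ?_, fun φ hφ h hh hgh => ?_,
    fun φ hφ => ?_⟩
  · have h1 := hA3 h
    unfold Lm ph at h1
    rw [hx0] at h1
    refine h1.congr fun t => ?_
    have e : S x0 + t • S (j h) = S (x0 + t • j h) := by rw [map_add, map_smul]
    rw [hgS, ← hS, e, S.norm_map]
  · refine dual_bound (by rw [← hS, hgS, hf.2, hx0]) hφ hx ?_ hgh fun s hs => ?_
    · rw [S.norm_map]
      exact (hjn h).trans hh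
    · have h1 := hbd (s • h)
      rw [map_smul, map_smul, map_smul, hgh, smul_zero, add_zero, norm_smul, mul_pow,
        Real.norm_eq_abs, sq_abs] at h1
      have h2 : ‖h‖ ^ 2 ≤ 1 := pow_le_one₀ (norm_nonneg _) hh
      have h3 : s ^ 2 * ‖h‖ ^ 2 ≤ s ^ 2 := mul_le_of_le_one_right (sq_nonneg _) h2
      linarith
  · by_contra hcon
    push Not at hcon
    -- the kernel of `g ∘ S ∘ j` is contained in that of `φ ∘ S ∘ j`
    have hker : ∀ h, g (S (j h)) = 0 → φ (S (j h)) = 0 := by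
      intro h hh
      rcases eq_or_ne h 0 with rfl | hne
      · rw [map_zero, map_zero, map_zero]
      · have h0 : 0 < ‖h‖ := norm_pos_iff.2 hne
        have h1 := hcon (‖h‖⁻¹ • h) (by
          rw [norm_smul, norm_inv, norm_norm, inv_mul_cancel₀ h0.ne']) (by
          rw [map_smul, map_smul, map_smul, hh, smul_zero])
        rw [map_smul, map_smul, map_smul, smul_eq_mul] at h1
        exact (mul_eq_zero.1 h1).resolve_left (inv_ne_zero h0.ne')
    -- a vector on which `g` does not vanish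
    have hne : ∃ h1, g (S (j h1)) ≠ 0 := by
      by_contra hz
      push Not at hz
      have hd : DenseRange fun h => S (j h) := S.surjective.denseRange.comp hdense S.continuous
      have h2 : (g : E → ℝ) = fun _ => 0 :=
        Continuous.ext_on hd g.continuous continuous_const (by
          rintro _ ⟨h, rfl⟩
          exact hz h)
      have h3 := congrFun h2 x
      rw [← hS, hgS, hf.2, hx0] at h3
      exact one_ne_zero h3
    obtain ⟨h1, hh1⟩ := hne
    refine hφ (φ (S (j h1)) / g (S (j h1))) ?_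
    have hd : DenseRange fun h => S (j h) := S.surjective.denseRange.comp hdense S.continuous
    refine DFunLike.coe_injective (Continuous.ext_on hd φ.continuous
      (by fun_prop) ?_)
    rintro _ ⟨h, rfl⟩
    have h4 := hker (h - (g (S (j h)) / g (S (j h1))) • h1) (by
      rw [map_sub, map_sub, map_sub, map_smul, map_smul, map_smul, smul_eq_mul,
        div_mul_cancel₀ _ hh1, sub_self])
    rw [map_sub, map_sub, map_sub, map_smul, map_smul, map_smul, smul_eq_mul, sub_eq_zero] at h4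
    simp only [smul_apply, smul_eq_mul]
    rw [h4]
    ring

end Pool.Agent.X192.BM
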