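import Pool.Agent.Y278.Rot.Main

/-! # Second order expansions along the range of a compact operator from `ℓ²` -/

set_option autoImplicit false

namespace Pool.Agent.X192.BM

open Set Filter Topology
open Pool.Agent.Y278.Rot

/-- the Hilbert space `ℓ²` -/
abbrev Hs : Type := lp (fun _ : ℕ => ℝ) 2

variable {E : Type} [NormedAddCommGroup E] [NormedSpace ℝ E]

lemma coord_le (h : Hs) (n : ℕ) : |h n| ≤ ‖h‖ := by
  have := lp.norm_apply_le_norm (p := 2) (by norm_num) h n
  rwa [Real.norm_eq_abs] at this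

lemma geo_hasSum : HasSum (fun n : ℕ => (1 / 2 : ℝ) ^ (n + 1)) 1 := by
  have h := hasSum_geometric_two
  have h2 := h.mul_left (1 / 2 : ℝ)
  norm_num at h2
  refine h2.congr_fun ?_ |> fun h => h
  intro n
  ring

lemma geo_partial (N : ℕ) : ∑ n ∈ Finset.range N, (1 / 2 : ℝ) ^ (n + 1) ≤ 1 :=
  sum_le_hasSum _ (fun n _ => by positivity) geo_hasSum

/-- the operator `h ↦ ∑ h n • a n` -/
theorem exists_op [CompleteSpace E] (a : ℕ → E) (ha : ∀ n, ‖a n‖ ≤ (1 / 2 : ℝ) ^ (n + 1)) :
    ∃ j : Hs →L[ℝ] E, (∀ h : Hs, HasSum (fun n => h n • a n) (j h)) ∧ IsCompactOperator j := by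
  have hb : ∀ (h : Hs) n, ‖h n • a n‖ ≤ ‖h‖ * (1 / 2 : ℝ) ^ (n + 1) := by
    intro h n
    rw [norm_smul, Real.norm_eq_abs]
    exact mul_le_mul (coord_le h n) (ha n) (norm_nonneg _) (norm_nonneg _)
  have hs : ∀ h : Hs, Summable (fun n => h n • a n) := fun h =>
    Summable.of_norm_bounded (geo_hasSum.summable.mul_left ‖h‖) (hb h)
  let L : Hs →ₗ[ℝ] E :=
    { toFun := fun h => ∑' n, h n • a n
      map_add' := fun g h => by
        rw [← (hs g).tsum_add (hs h)]
        refine tsum_congr fun n => ?_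
        rw [lp.coeFn_add, Pi.add_apply, add_smul]
      map_smul' := fun c h => by
        rw [RingHom.id_apply, ← (hs h).tsum_const_smul c]
        refine tsum_congr fun n => ?_
        rw [lp.coeFn_smul, Pi.smul_apply, smul_assoc] }
  have hL : ∀ h : Hs, ‖L h‖ ≤ 1 * ‖h‖ := by
    intro h
    have := tsum_of_norm_bounded (geo_hasSum.mul_left ‖h‖) (hb h)
    rw [one_mul]
    rw [mul_one] at this
    exact this
  let j : Hs →L[ℝ] E := L.mkContinuous 1 hL
  have hj : ∀ h : Hs, HasSum (fun n => h n • a n) (j h) := fun h => (hs h).hasSum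
  refine ⟨j, hj, ?_⟩
  -- rank one operators
  let ev : ℕ → (Hs →L[ℝ] ℝ) := fun n =>
    LinearMap.mkContinuous
      { toFun := fun h : Hs => h n
        map_add' := fun g h => by rw [lp.coeFn_add, Pi.add_apply]
        map_smul' := fun c h => by rw [lp.coeFn_smul, Pi.smul_apply, RingHom.id_apply] } 1
      (fun h => by
        rw [one_mul, Real.norm_eq_abs]
        exact coord_le h n)
  let R : ℕ → (Hs →L[ℝ] E) := fun n => (ContinuousLinearMap.toSpanSingleton ℝ (a n)).comp (ev n)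
  have hR : ∀ n h, R n h = h n • a n := fun n h => rfl
  have hRc : ∀ n, IsCompactOperator (R n) := by
    intro n
    have h1 : IsCompactOperator (ev n) := isCompactOperator_of_locallyCompactSpace_dom _
    exact h1.clm_comp (ContinuousLinearMap.toSpanSingleton ℝ (a n))
  let S : ℕ → (Hs →L[ℝ] E) := fun N => ∑ n ∈ Finset.range N, R n
  have hSc : ∀ N, IsCompactOperator (S N) := by
    intro N
    induction N with
    | zero =>
      have : S 0 = 0 := by simp [S]
      rw [this]
      exact isCompactOperator_zero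
    | succ N ih =>
      have : S (N + 1) = S N + R N := by simp [S, Finset.sum_range_succ]
      rw [this]
      exact ih.add (hRc N)
  have hSj : Tendsto S atTop (𝓝 j) := by
    rw [Metric.tendsto_atTop]
    intro ε hε
    have hg := geo_hasSum.tendsto_sum_nat
    rw [Metric.tendsto_atTop] at hg
    obtain ⟨N, hN⟩ := hg (ε / 2) (by positivity)
    refine ⟨N, fun n hn => ?_⟩
    have h1 := hN n hn
    rw [Real.dist_eq, abs_sub_comm] at h1
    have h2 : ‖S n - j‖ ≤ ε / 2 := by
      refine ContinuousLinearMap.opNorm_le_bound _ (by positivity) fun h => ?_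
      have h3 : HasSum (fun k => h (k + n) • a (k + n)) (j h - S n h) := by
        have h4 := (hasSum_nat_add_iff' n).2 (hj h)
        have h5 : S n h = ∑ i ∈ Finset.range n, h i • a i := by
          simp only [S, sum_apply, hR]
        rw [h5]
        exact h4
      have h6 : HasSum (fun k => ‖h‖ * (1 / 2 : ℝ) ^ (k + n + 1))
          (‖h‖ * (1 - ∑ i ∈ Finset.range n, (1 / 2 : ℝ) ^ (i + 1))) :=
        ((hasSum_nat_add_iff' n).2 geo_hasSum).mul_left ‖h‖
      have h7 : ‖j h - S n h‖ ≤ ‖h‖ * (1 - ∑ i ∈ Finset.range n, (1 / 2 : ℝ) ^ (i + 1)) := by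
        rw [← h3.tsum_eq]
        exact tsum_of_norm_bounded h6 (fun k => hb h (k + n))
      have h8 := le_abs_self (1 - ∑ i ∈ Finset.range n, (1 / 2 : ℝ) ^ (i + 1))
      calc ‖(S n - j) h‖ = ‖j h - S n h‖ := by
            rw [sub_apply, norm_sub_rev]
        _ ≤ ‖h‖ * (1 - ∑ i ∈ Finset.range n, (1 / 2 : ℝ) ^ (i + 1)) := h7
        _ ≤ ‖h‖ * (ε / 2) := by
            gcongr
            linarith
        _ = ε / 2 * ‖h‖ := mul_comm _ _
    rw [dist_eq_norm]
    linarith
  exact isCompactOperator_of_tendsto hSj (Eventually.of_forall hSc)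

variable {z : E} {f : StrongDual ℝ E}

lemma ph_cont (t : ℝ) : Continuous (ph z f t) := by
  unfold ph
  fun_prop

/-- the bound passes to the whole range -/
theorem Bd_range {a : ℕ → E} {j : Hs →L[ℝ] E} (hj : ∀ h : Hs, HasSum (fun n => h n • a n) (j h))
    (hB : ∀ n, Bd z f (a n) ((1 / 2 : ℝ) ^ (n + 1))) (h : Hs) : Bd z f (j h) ‖h‖ := by
  rcases eq_or_ne h 0 with rfl | hh
  · rw [map_zero]
    exact Bd_zero _
  have h0 : 0 < ‖h‖ := norm_pos_iff.2 hh
  intro t ht
  have h1 : ∀ N : ℕ, ph z f t (∑ n ∈ Finset.range N, h n • a n) ≤ ‖h‖ ^ 2 := by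
    intro N
    have h2 := Bd_sum (z := z) (f := f) (Finset.range N) (w := fun n => h n • a n)
      (D := fun n => ‖h‖ * (1 / 2 : ℝ) ^ (n + 1)) (fun i _ => by positivity)
      (fun i _ => Bd_mono (Bd_smul (hB i) (h i)) (by positivity)
        (mul_le_mul_of_nonneg_right (coord_le h i) (by positivity)))
    have h3 : ∑ n ∈ Finset.range N, ‖h‖ * (1 / 2 : ℝ) ^ (n + 1) ≤ ‖h‖ := by
      rw [← Finset.mul_sum]
      exact mul_le_of_le_one_right h0.le (geo_partial N)
    exact Bd_mono h2 (Finset.sum_nonneg fun i _ => by positivity) h3 t ht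
  have h4 := ((ph_cont (z := z) (f := f) t).tendsto (j h)).comp (hj h).tendsto_sum_nat
  exact le_of_tendsto' h4 h1

lemma single_apply_op {a : ℕ → E} {j : Hs →L[ℝ] E}
    (hj : ∀ h : Hs, HasSum (fun n => h n • a n) (j h)) (n : ℕ) (r : ℝ) :
    j (lp.single 2 n r) = r • a n := by
  have h1 := hj (lp.single 2 n r)
  refine h1.unique ?_
  have h2 : HasSum (fun m => (lp.single 2 n r : Hs) m • a m)
      ((lp.single 2 n r : Hs) n • a n) := by
    refine hasSum_single n fun m hm => ?_
    have e : (lp.single 2 n r : Hs) m = 0 :=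
      lp.single_apply_ne (E := fun _ : ℕ => ℝ) 2 n r hm
    rw [e, zero_smul]
  have e : (lp.single 2 n r : Hs) n = r := lp.single_apply_self (E := fun _ : ℕ => ℝ) 2 n r
  rwa [e] at h2

/-- the truncation of a sequence -/
noncomputable def trunc (s : Finset ℕ) (h : Hs) : Hs := ∑ i ∈ s, lp.single 2 i (h i)

lemma trunc_tendsto (h : Hs) : Tendsto (fun s : Finset ℕ => trunc s h) atTop (𝓝 h) :=
  lp.hasSum_single (by norm_num) h

lemma trunc_add (s : Finset ℕ) (g h : Hs) : trunc s (g + h) = trunc s g + trunc s h := by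
  unfold trunc
  rw [← Finset.sum_add_distrib]
  refine Finset.sum_congr rfl fun i _ => ?_
  rw [lp.coeFn_add, Pi.add_apply, lp.single_add]

lemma trunc_sub (s : Finset ℕ) (g h : Hs) : trunc s (g - h) = trunc s g - trunc s h := by
  unfold trunc
  rw [← Finset.sum_sub_distrib]
  refine Finset.sum_congr rfl fun i _ => ?_
  rw [lp.coeFn_sub, Pi.sub_apply, lp.single_sub]

lemma op_trunc_mem {a : ℕ → E} {j : Hs →L[ℝ] E}
    (hj : ∀ h : Hs, HasSum (fun n => h n • a n) (j h)) {V : Submodule ℝ E} (hV : ∀ n, a n ∈ V)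
    (s : Finset ℕ) (h : Hs) : j (trunc s h) ∈ V := by
  unfold trunc
  rw [map_sum]
  refine V.sum_mem fun i _ => ?_
  rw [single_apply_op hj]
  exact V.smul_mem _ (hV i)

/-- **Expansions along the whole range.** -/
theorem Lm_range (hf : Nm z f) {a : ℕ → E} {j : Hs →L[ℝ] E}
    (hj : ∀ h : Hs, HasSum (fun n => h n • a n) (j h))
    (hB : ∀ n, Bd z f (a n) ((1 / 2 : ℝ) ^ (n + 1))) {V : Submodule ℝ E} (hV : ∀ n, a n ∈ V)
    {B : V →ₗ[ℝ] V →ₗ[ℝ] ℝ} (hE : Expand z f V B) (h : Hs) : ∃ m, Lm z f (j h) m := by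
  refine exists_lim (l := 𝓝[≠] (0 : ℝ)) fun ε hε => ?_
  set K : ℝ := (‖h‖ + 1) ^ 2 with hK
  have hK0 : 0 < K := by positivity
  set lam : ℝ := min (1 / 2) (ε / (2 * K + 3)) with hlam
  have hl0 : 0 < lam := lt_min (by norm_num) (by positivity)
  have hl1 : lam ≤ 1 / 2 := min_le_left _ _
  have hl2 : (2 * K + 3) * lam ≤ ε := by
    calc (2 * K + 3) * lam ≤ (2 * K + 3) * (ε / (2 * K + 3)) := by
          gcongr
          exact min_le_right _ _
      _ = ε := by field_simp
  have h1 := Metric.tendsto_nhds.1 (trunc_tendsto h) lam hl0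
  obtain ⟨s, hs⟩ := h1.exists
  have hs' : ‖h - trunc s h‖ ≤ lam := by
    rw [dist_comm, dist_eq_norm] at hs
    exact hs.le
  have hm := hE.2 ⟨j (trunc s h), op_trunc_mem hj hV s h⟩
  set m := B ⟨j (trunc s h), op_trunc_mem hj hV s h⟩ ⟨j (trunc s h), op_trunc_mem hj hV s h⟩
  have hmK : m ≤ K := by
    have h2 := Lm_le_of_Bd hm (Bd_range hj hB (trunc s h))
    have h3 : ‖trunc s h‖ ≤ ‖h‖ + 1 := by
      have := norm_sub_norm_le (trunc s h) h
      rw [norm_sub_rev] at this
      linarith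
    calc m ≤ ‖trunc s h‖ ^ 2 := h2
      _ ≤ K := by
        rw [hK]
        gcongr
  refine ⟨m, ?_⟩
  filter_upwards [unif_near hf hm hmK hl0 hl1] with t ht
  refine (ht (j h) ?_).trans hl2
  rw [← map_sub]
  exact Bd_mono (Bd_range hj hB _) (norm_nonneg _) hs'

/-- **The form of the expansions.** -/
theorem form_range (hf : Nm z f) {a : ℕ → E} {j : Hs →L[ℝ] E}
    (hj : ∀ h : Hs, HasSum (fun n => h n • a n) (j h))
    (hB : ∀ n, Bd z f (a n) ((1 / 2 : ℝ) ^ (n + 1))) {V : Submodule ℝ E} (hV : ∀ n, a n ∈ V)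
    {B : V →ₗ[ℝ] V →ₗ[ℝ] ℝ} (hE : Expand z f V B) :
    ∃ A : Hs →L[ℝ] Hs →L[ℝ] ℝ, (∀ g h, A g h = A h g) ∧ (∀ h, 0 ≤ A h h ∧ A h h ≤ ‖h‖ ^ 2) ∧
      ∀ h, Lm z f (j h) (A h h) := by
  choose q hq using Lm_range hf hj hB hV hE
  have h0 : ∀ h, 0 ≤ q h := fun h => Lm_nonneg hf (hq h)
  have hle : ∀ h, q h ≤ ‖h‖ ^ 2 := fun h => Lm_le_of_Bd (hq h) (Bd_range hj hB h)
  have hs : ∀ (c : ℝ) (h : Hs), q (c • h) = c ^ 2 * q h := by
    intro c h
    refine Lm_unique (hq (c • h)) ?_
    rw [map_smul]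
    exact Lm_smul (hq h) c
  have ht : ∀ g h, √(q (g + h)) ≤ √(q g) + √(q h) := by
    intro g h
    refine Lm_add_le hf (hq g) (hq h) ?_
    rw [← map_add]
    exact hq _
  have hcont : Continuous q := by
    have h1 : Continuous fun h => √(q h) := by
      rw [Metric.continuous_iff]
      intro b ε hε
      refine ⟨ε, hε, fun a ha => ?_⟩
      rw [Real.dist_eq]
      rw [dist_eq_norm] at ha
      calc |√(q a) - √(q b)| ≤ √(q (a - b)) := sqrt_sub_le hs ht _ _
        _ ≤ √(‖a - b‖ ^ 2) := Real.sqrt_le_sqrt (hle _)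
        _ = ‖a - b‖ := Real.sqrt_sq (norm_nonneg _)
        _ < ε := ha
    have h2 : q = fun h => √(q h) ^ 2 := by
      funext h
      rw [Real.sq_sqrt (h0 h)]
    rw [h2]
    exact h1.pow 2
  have hp : ∀ g h, q (g + h) + q (g - h) = 2 * q g + 2 * q h := by
    intro g h
    -- on truncations
    have h1 : ∀ s : Finset ℕ, q (trunc s (g + h)) + q (trunc s (g - h))
        = 2 * q (trunc s g) + 2 * q (trunc s h) := by
      intro s
      let G : V := ⟨j (trunc s g), op_trunc_mem hj hV s g⟩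
      let H : V := ⟨j (trunc s h), op_trunc_mem hj hV s h⟩
      have e1 : q (trunc s g) = B G G := Lm_unique (hq _) (hE.2 G)
      have e2 : q (trunc s h) = B H H := Lm_unique (hq _) (hE.2 H)
      have e3 : q (trunc s (g + h)) = B (G + H) (G + H) := by
        refine Lm_unique (hq _) ?_
        rw [trunc_add, map_add]
        exact hE.2 (G + H)
      have e4 : q (trunc s (g - h)) = B (G - H) (G - H) := by
        refine Lm_unique (hq _) ?_
        rw [trunc_sub, map_sub]
        exact hE.2 (G - H)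
      rw [e1, e2, e3, e4]
      simp only [map_add, map_sub, LinearMap.add_apply, LinearMap.sub_apply]
      ring
    have l1 := ((hcont.tendsto _).comp (trunc_tendsto (g + h))).add
      ((hcont.tendsto _).comp (trunc_tendsto (g - h)))
    have l2 := (((hcont.tendsto _).comp (trunc_tendsto g)).const_mul 2).add
      (((hcont.tendsto _).comp (trunc_tendsto h)).const_mul 2)
    refine tendsto_nhds_unique l1 (l2.congr fun s => ?_)
    simp only [Function.comp_apply]
    exact (h1 s).symm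
  obtain ⟨D, hD, hDq⟩ := exists_form h0 hs ht hp
  have hCS : ∀ g h, ‖D g h‖ ≤ 1 * ‖g‖ * ‖h‖ := by
    intro g h
    have h1 : ∀ t : ℝ, 0 ≤ q g * (t * t) + 2 * D g h * t + q h := by
      intro t
      have h2 := h0 (t • g + h)
      rw [← hDq] at h2
      simp only [map_add, map_smul, LinearMap.add_apply, LinearMap.smul_apply, smul_eq_mul,
        hDq] at h2
      rw [hD h g] at h2
      linarith
    have h3 := discrim_le_zero h1
    unfold discrim at h3
    have h4 : (D g h) ^ 2 ≤ (‖g‖ * ‖h‖) ^ 2 := by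
      have h5 : q g * q h ≤ ‖g‖ ^ 2 * ‖h‖ ^ 2 :=
        mul_le_mul (hle g) (hle h) (h0 h) (by positivity)
      nlinarith
    rw [Real.norm_eq_abs, one_mul]
    exact abs_le_of_sq_le_sq h4 (by positivity)
  refine ⟨LinearMap.mkContinuous₂ D 1 hCS, fun g h => ?_, fun h => ?_, fun h => ?_⟩
  · rw [LinearMap.mkContinuous₂_apply, LinearMap.mkContinuous₂_apply]
    exact hD g h
  · rw [LinearMap.mkContinuous₂_apply, hDq]
    exact ⟨h0 h, hle h⟩
  · rw [LinearMap.mkContinuous₂_apply, hDq]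
    exact hq h

end Pool.Agent.X192.BM
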