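import Pool.Agent.W687.RotIso1

/-!
# Almost rotations by all angles from one isometric involution

The proof of `star2` follows the starting theorem `Pool.Agent.W687.Rot.star`, with all angles
in place of `π / 4`.
-/

set_option autoImplicit false

namespace Pool.Agent.X192.BM

open Pool.H590R3.Ab Pool.Agent.W687.Rot

variable {E : Type*} [NormedAddCommGroup E] [NormedSpace ℝ E]

/-- the errors of the powers -/
lemma errs4 {c σ η ρ S θ : ℝ} (hc0 : 0 < c) (hσpos : 0 < σ) (hσ1 : σ ≤ 1) (hηpos : 0 < η)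
    (hσ2 : σ ^ 2 = η) (hρ1 : η / 2 ≤ ρ) (hsinσ : σ ≤ S) (hS1 : S ≤ 1) (hθσ : σ ≤ θ) (k : ℕ)
    (hk : k * θ ≤ 8) :
    k * (c * σ * η / 64 + ρ / S * (3 * (c * σ * η / 64) / ρ)) ≤ c ∧
      k * (c * σ * η / 64 / (ρ / S) + 3 * (c * σ * η / 64) / ρ) ≤ c := by
  set ε : ℝ := c * σ * η / 64 with hε
  have hρpos : 0 < ρ := by linarith
  have hSpos : 0 < S := by linarith
  have hεpos : 0 < ε := by positivity
  have hkσ : k * σ ≤ 8 := by
    have : (k:ℝ) * σ ≤ k * θ := mul_le_mul_of_nonneg_left hθσ (Nat.cast_nonneg k)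
    linarith
  have hk0 : (0:ℝ) ≤ k := Nat.cast_nonneg k
  constructor
  · have h1 : ρ / S * (3 * ε / ρ) = 3 * ε / S := by field_simp
    rw [h1]
    have h2 : 3 * ε / S ≤ 3 * ε / σ := by gcongr
    have h3 : ε ≤ ε / σ := by
      rw [le_div_iff₀ hσpos]
      exact mul_le_of_le_one_right hεpos.le hσ1
    have h4 : ε + 3 * ε / S ≤ 4 * (ε / σ) := by
      have : 3 * ε / σ = 3 * (ε / σ) := by ring
      linarith
    have h5 : ε / σ = c * η / 64 := by rw [hε]; field_simp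
    have h6 : (k:ℝ) * (4 * (ε / σ)) = (k * σ) * (c * σ / 16) := by
      rw [h5, ← hσ2]; ring
    calc (k:ℝ) * (ε + 3 * ε / S) ≤ k * (4 * (ε / σ)) :=
          mul_le_mul_of_nonneg_left h4 hk0
      _ = (k * σ) * (c * σ / 16) := h6
      _ ≤ 8 * (c * σ / 16) := mul_le_mul_of_nonneg_right hkσ (by positivity)
      _ ≤ c := by nlinarith
  · have h1 : ε / (ρ / S) ≤ 2 * ε / η := by
      rw [div_div_eq_mul_div, div_le_div_iff₀ hρpos hηpos]
      have h3 : ε * S * η ≤ ε * 1 * η := by gcongr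
      have h4 : ε * (η / 2) ≤ ε * ρ := mul_le_mul_of_nonneg_left hρ1 hεpos.le
      linarith
    have h2 : 3 * ε / ρ ≤ 6 * ε / η := by
      rw [div_le_div_iff₀ hρpos hηpos]
      nlinarith
    have h3 : ε / (ρ / S) + 3 * ε / ρ ≤ 8 * ε / η := by
      have : 8 * ε / η = 2 * ε / η + 6 * ε / η := by ring
      linarith
    have h4 : 8 * ε / η = c * σ / 8 := by rw [hε]; field_simp; norm_num
    calc (k:ℝ) * (ε / (ρ / S) + 3 * ε / ρ) ≤ k * (8 * ε / η) := mul_le_mul_of_nonneg_left h3 hk0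
      _ = (k * σ) * (c / 8) := by rw [h4]; ring
      _ ≤ 8 * (c / 8) := mul_le_mul_of_nonneg_right hkσ (by positivity)
      _ = c := by ring


/-- almost rotations by all angles in almost Euclidean planes -/
theorem star2 [CompleteSpace E] [TopologicalSpace.SeparableSpace E]
    (htr : ∀ x y : E, ‖x‖ = 1 → ‖y‖ = 1 → ∃ T : E ≃ₗᵢ[ℝ] E, T x = y)
    (P : E →L[ℝ] E) (hP : ∀ x, P (P x) = P x)
    (hs : ∀ z, ‖z - (2 : ℝ) • P z‖ = ‖z‖)
    (hP1 : ∀ z, ‖P z‖ ≤ ‖z‖) (hP2 : ∀ z, ‖z - P z‖ ≤ ‖z‖)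
    (y0 w0 : E) (hy0 : ‖y0‖ = 1) (hw0 : ‖w0‖ = 1) (hy : P y0 = 0) (hw : P w0 = w0)
    (δ : ℝ) (hδ : 0 < δ) :
    ∃ (w v : E) (U : E ≃ₗᵢ[ℝ] E), P w = 0 ∧ ‖w‖ = 1 ∧ P v = v ∧ ‖v‖ = 1 ∧
      (rfx P hP hs) * U * (rfx P hP hs)⁻¹ = U⁻¹ ∧
      (∀ φ : ℝ, 0 ≤ φ → φ ≤ 2 * Real.pi → ∃ k : ℕ,
        ‖(U ^ k) w - (Real.cos φ • w + Real.sin φ • v)‖ ≤ δ ∧
        ‖(U ^ k) v - (Real.cos φ • v - Real.sin φ • w)‖ ≤ δ) ∧
      ∀ p q : ℝ, |‖p • w + q • v‖ - Real.sqrt (p ^ 2 + q ^ 2)| ≤ δ * Real.sqrt (p ^ 2 + q ^ 2) := by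
  have hpi := Real.pi_pos
  have hpi3 := Real.pi_gt_three
  have hpi4 := Real.pi_le_four
  set c : ℝ := min (δ / 9) (1 / 16) with hc
  have hc0 : 0 < c := by positivity
  have hc1 : c ≤ 1 / 16 := min_le_right _ _
  have hc2 : c ≤ δ / 9 := min_le_left _ _
  set r : ℝ := 1 - Real.cos c with hr
  have hr0 : 0 < r := by
    have := Real.cos_lt_cos_of_nonneg_of_le_pi_div_two le_rfl (by linarith : c ≤ Real.pi / 2) hc0
    rw [Real.cos_zero] at this
    linarith
  have hcosc : 0 < Real.cos c := Real.cos_pos_of_mem_Ioo ⟨by linarith, by linarith⟩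
  have hr1 : r < 1 := by linarith
  obtain ⟨K0, hK0, hspec⟩ := spec (E := E) r hr0
  obtain ⟨T, hT1, hT2⟩ := near htr P hP1 hP2 y0 w0 hy0 hw0 hy hw (1 / (4 * K0)) (by positivity)
  set R : E →L[ℝ] E := op T * P * op T⁻¹ with hRdef
  have hRa : ∀ z, R z = T (P (T.symm z)) := fun z => rfl
  have hR1 : ∀ z, ‖R z‖ ≤ ‖z‖ := by
    intro z
    rw [hRa, T.norm_map]
    refine (hP1 _).trans ?_
    rw [T.symm.norm_map]
  set s : E ≃ₗᵢ[ℝ] E := rfx P hP hs with hsdef
  have hs2 : s * s = 1 := rfx_sq P hP hs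
  have hsinv : s⁻¹ = s := inv_eq_of_mul_eq_one_left hs2
  have hsa : ∀ z, s z = z - (2:ℝ) • P z := fun z => rfx_apply P hP hs z
  have hfix : ∀ z, s z = z ↔ P z = 0 := by
    intro z
    rw [hsa]
    constructor
    · intro h
      have : (2:ℝ) • P z = 0 := by
        have := sub_eq_self.1 h
        exact this
      exact (smul_eq_zero.1 this).resolve_left (by norm_num)
    · intro h
      rw [h, smul_zero, sub_zero]
  set sg : E ≃ₗᵢ[ℝ] E := T * s * T⁻¹ with hsg
  have hsga : ∀ z, sg z = z - (2:ℝ) • R z := by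
    intro z
    show T (s (T.symm z)) = _
    rw [hsa, map_sub, map_smul, T.apply_symm_apply, hRa]
  have hsg2 : sg * sg = 1 := by
    rw [hsg]
    calc T * s * T⁻¹ * (T * s * T⁻¹) = T * (s * s) * T⁻¹ := by group
      _ = 1 := by rw [hs2]; group
  have hsginv : sg⁻¹ = sg := inv_eq_of_mul_eq_one_left hsg2
  set U : E ≃ₗᵢ[ℝ] E := s * sg with hU
  have hUinv : U⁻¹ = sg * s := by rw [hU, mul_inv_rev, hsinv, hsginv]
  have hsU : s * U * s⁻¹ = U⁻¹ := by
    rw [hUinv, hsinv, hU, ← mul_assoc, hs2, one_mul]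
  have hUa : ∀ z, P z = 0 → U z = z - (2:ℝ) • R z + (4:ℝ) • P (R z) := by
    intro z hz
    show s (sg z) = _
    rw [hsga, hsa, map_sub, map_smul, hz]
    module
  have hUia : ∀ z, P z = 0 → U⁻¹ z = z - (2:ℝ) • R z := by
    intro z hz
    rw [hUinv]
    show sg (s z) = _
    rw [(hfix z).2 hz, hsga]
  have hNn : ∀ z, P z = 0 → Nn U z = (-2 : ℝ) • (R z - P (R z)) := by
    intro z hz
    rw [Nn_apply]
    have : Co U z = (1 / 2 : ℝ) • (U z + U⁻¹ z) := rfl
    rw [this, hUa z hz, hUia z hz]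
    module
  obtain ⟨η0, hη0, hη'⟩ := hspec U s y0 R hsU ((hfix y0).2 hy) hR1 (by
    intro z hz1 hz2
    have hz3 := (hfix z).1 hz1
    have h1 : Co U z = (1 / 2 : ℝ) • (U z + U⁻¹ z) := rfl
    have h2 : U z + U⁻¹ z = (2:ℝ) • z := by
      rw [h1] at hz2
      have := congrArg (fun v => (2:ℝ) • v) hz2
      simp only [smul_smul] at this
      norm_num at this
      exact this
    have h3 : U (U z) = (2:ℝ) • U z - z := by
      have h4 : U (U⁻¹ z) = z := U.apply_symm_apply z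
      have h5 := congrArg U h2
      rw [map_add, h4, map_smul] at h5
      rw [← h5]; abel
    have h4 := unip_vec U z h3
    have h5 : U⁻¹ z = z := by
      have : U.symm (U z) = z := U.symm_apply_apply z
      rw [h4] at this
      exact this
    rw [hUia z hz3] at h5
    have h6 := sub_eq_self.1 h5
    exact (smul_eq_zero.1 h6).resolve_left (by norm_num)) (by
    rw [hNn y0 hy, norm_smul]
    have h1 : ‖R y0 - P (R y0)‖ ≤ 1 / (4 * K0) * ‖R y0‖ := hT2
    have h2 : 0 < ‖R y0‖ := norm_pos_iff.2 hT1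
    have h3 : ‖(-2:ℝ)‖ = 2 := by norm_num
    rw [h3]
    have h4 : K0 * (2 * (1 / (4 * K0) * ‖R y0‖)) = ‖R y0‖ / 2 := by field_simp; norm_num
    have h5 : K0 * (2 * ‖R y0 - P (R y0)‖) ≤ K0 * (2 * (1 / (4 * K0) * ‖R y0‖)) := by
      gcongr
    linarith)
  -- the parameters
  set η : ℝ := min η0 1 with hη
  have hηpos : 0 < η := lt_min hη0 one_pos
  have hη1 : η ≤ 1 := min_le_right _ _
  have hηη0 : η ≤ η0 := min_le_left _ _
  set σ : ℝ := Real.sqrt η with hσ
  have hσpos : 0 < σ := Real.sqrt_pos.2 hηpos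
  have hσ1 : σ ≤ 1 := Real.sqrt_le_one.2 hη1
  have hσ2 : σ ^ 2 = η := Real.sq_sqrt hηpos.le
  set ε : ℝ := c * σ * η / 64 with hε
  have hεpos : 0 < ε := by positivity
  have hεη : ε ≤ η / 2 := by
    have h1 : c * σ ≤ 1 := mul_le_one₀ (by linarith) hσpos.le hσ1
    have h2 : c * σ * η ≤ 1 * η := mul_le_mul_of_nonneg_right h1 hηpos.le
    rw [hε]
    linarith
  obtain ⟨z, hz0, hsz, μ, hμ1, hμ2, hz⟩ := hη' ε hεpos
  have hPz := (hfix z).1 hsz
  have hzn : 0 < ‖z‖ := norm_pos_iff.2 hz0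
  obtain ⟨x, hx1, hPx, hxe⟩ : ∃ x : E, ‖x‖ = 1 ∧ P x = 0 ∧
      ‖(1 / 2 : ℝ) • (U x + U.symm x) - (1 - μ) • x‖ ≤ ε := by
    refine ⟨‖z‖⁻¹ • z, ?_, ?_, ?_⟩
    · rw [norm_smul, norm_inv, norm_norm, inv_mul_cancel₀ hzn.ne']
    · rw [map_smul, hPz, smul_zero]
    · have h1 : (1 / 2 : ℝ) • (U (‖z‖⁻¹ • z) + U.symm (‖z‖⁻¹ • z)) - (1 - μ) • (‖z‖⁻¹ • z) =
          ‖z‖⁻¹ • (Nn U z + μ • z) := by
        have h2 : Nn U z = (1 / 2 : ℝ) • (U z + U.symm z) - z := by
          rw [Nn_apply]; rfl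
        rw [h2, map_smul, map_smul]
        module
      rw [h1, norm_smul, norm_inv, norm_norm, inv_mul_le_iff₀ hzn, mul_comm]
      exact hz
  have hμη : η ≤ μ := hηη0.trans hμ1
  set A : ℝ := 1 - μ with hA
  have hAcos : Real.cos c ≤ A := by linarith
  have hA0 : 0 < A := hcosc.trans_le hAcos
  have hA1 : A < 1 := by linarith
  set v' : E := (1 / 2 : ℝ) • (U x - U.symm x) with hv'
  have hUv' := eig U x A ε (by rw [abs_of_pos hA0]; exact hA1.le) hxe
  rw [← hv'] at hUv'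
  have hPv' : P v' = v' := by
    have h1 : v' = (2:ℝ) • P (R x) := by
      have e1 : U.symm x = x - (2:ℝ) • R x := hUia x hPx
      rw [hv', e1, hUa x hPx]
      module
    rw [h1, map_smul, hP]
  have hUx : U x = A • x + v' + ((1 / 2 : ℝ) • (U x + U.symm x) - A • x) := by
    rw [hv']; module
  set ρ : ℝ := ‖v'‖ with hρ
  have hρ1 : η / 2 ≤ ρ := by
    have h1 : ‖U x‖ ≤ ‖A • x‖ + ‖v'‖ + ‖(1 / 2 : ℝ) • (U x + U.symm x) - A • x‖ := by
      nth_rewrite 1 [hUx]
      exact norm_add₃_le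
    rw [U.norm_map, hx1, norm_smul, hx1, Real.norm_of_nonneg hA0.le, mul_one] at h1
    linarith
  have hρpos : 0 < ρ := by linarith
  obtain ⟨v, hv1, hPv, hvv⟩ : ∃ v : E, ‖v‖ = 1 ∧ P v = v ∧ v' = ρ • v := by
    refine ⟨ρ⁻¹ • v', ?_, ?_, ?_⟩
    · rw [norm_smul, norm_inv, hρ, norm_norm, inv_mul_cancel₀ hρpos.ne']
    · rw [map_smul, hPv']
    · rw [smul_smul, mul_inv_cancel₀ hρpos.ne', one_smul]
  -- the angle
  set θ : ℝ := Real.arccos A with hθ
  have hθ0 : 0 < θ := Real.arccos_pos.2 hA1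
  have hcosθ : Real.cos θ = A := Real.cos_arccos (by linarith) hA1.le
  have hθc : θ ≤ c := by
    have h1 : Real.arccos A ≤ Real.arccos (Real.cos c) := Real.arccos_le_arccos hAcos
    rwa [Real.arccos_cos hc0.le (by linarith)] at h1
  have hsin : 0 < Real.sin θ := Real.sin_pos_of_pos_of_lt_pi hθ0 (by linarith)
  have hsin2 : Real.sin θ ^ 2 = 1 - A ^ 2 := by
    have := Real.sin_sq_add_cos_sq θ
    rw [hcosθ] at this
    linarith
  have hsinσ : σ ≤ Real.sin θ := by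
    have h1 : σ ^ 2 ≤ Real.sin θ ^ 2 := by
      rw [hsin2, hσ2]
      have : 1 - A ^ 2 = μ * (1 + A) := by rw [hA]; ring
      rw [this]
      nlinarith
    exact (sq_le_sq₀ hσpos.le hsin.le).1 h1
  have hθσ : σ ≤ θ := hsinσ.trans (Real.sin_le hθ0.le)
  set K : ℝ := ρ / Real.sin θ with hK
  have hKpos : 0 < K := by positivity
  have hKs : K * Real.sin θ = ρ := by rw [hK, div_mul_cancel₀ _ hsin.ne']
  have hsK : Real.sin θ / K = (1 - A ^ 2) / ρ := by
    rw [hK, ← hsin2]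
    field_simp
  have hI1 : ‖U x - (Real.cos θ • x + (K * Real.sin θ) • v)‖ ≤ ε := by
    rw [hcosθ, hKs, ← hvv]
    have : U x - (A • x + v') = (1 / 2 : ℝ) • (U x + U.symm x) - A • x := by
      nth_rewrite 1 [hUx]; abel
    rw [this]
    exact hxe
  have hI2 : ‖U v - (-(Real.sin θ / K) • x + Real.cos θ • v)‖ ≤ 3 * ε / ρ := by
    rw [hcosθ, hsK]
    have h1 : U v - (-((1 - A ^ 2) / ρ) • x + A • v) =
        ρ⁻¹ • (U v' - (-(1 - A ^ 2) • x + A • v')) := by
      rw [hvv, map_smul, smul_sub, smul_smul, smul_add, smul_smul, smul_smul, smul_smul,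
        inv_mul_cancel₀ hρpos.ne', one_smul]
      have e1 : ρ⁻¹ * -(1 - A ^ 2) = -((1 - A ^ 2) / ρ) := by ring
      have e2 : ρ⁻¹ * A * ρ = A := by field_simp
      rw [e1, e2]
    rw [h1, norm_smul, norm_inv, Real.norm_of_nonneg hρpos.le, inv_mul_le_iff₀ hρpos]
    have e3 : ρ * (3 * ε / ρ) = 3 * ε := by field_simp
    rw [e3]
    exact hUv'
  have hit := iter U x v θ K ε (3 * ε / ρ) hKpos hI1 hI2
  -- the errors
  have hkb : ∀ k : ℕ, k * θ ≤ 2 * Real.pi →
      k * (ε + K * (3 * ε / ρ)) ≤ c ∧ k * (ε / K + 3 * ε / ρ) ≤ c := by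
    intro k hk
    exact errs4 hc0 hσpos hσ1 hηpos hσ2 hρ1 hsinσ (Real.sin_le_one θ) hθσ k (by linarith)
  -- the norm of the plane
  set n : ℝ → ℝ → ℝ := fun p q => ‖p • x + q • v‖ with hndef
  have hPpq : ∀ p q : ℝ, P (p • x + q • v) = q • v := by
    intro p q
    rw [map_add, map_smul, map_smul, hPx, hPv, smul_zero, zero_add]
  have hP'pq : ∀ p q : ℝ, (p • x + q • v) - P (p • x + q • v) = p • x := by
    intro p q
    rw [hPpq, add_sub_cancel_right]
  have hn : AbsNorm n := by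
    refine ⟨?_, ?_, ?_, ?_, ?_, ?_, ?_⟩
    · intro p q p' q'
      show ‖(p + p') • x + (q + q') • v‖ ≤ ‖p • x + q • v‖ + ‖p' • x + q' • v‖
      have : (p + p') • x + (q + q') • v = (p • x + q • v) + (p' • x + q' • v) := by module
      rw [this]
      exact norm_add_le _ _
    · intro t p q
      show ‖(t * p) • x + (t * q) • v‖ = |t| * ‖p • x + q • v‖
      rw [← Real.norm_eq_abs, ← norm_smul]
      congr 1
      module
    · intro p q
      have := hP2 (p • x + q • v)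
      rwa [hP'pq, norm_smul, hx1, mul_one, Real.norm_eq_abs] at this
    · intro p q
      have := hP1 (p • x + q • v)
      rwa [hPpq, norm_smul, hv1, mul_one, Real.norm_eq_abs] at this
    · intro p
      show ‖p • x + (0:ℝ) • v‖ = |p|
      rw [zero_smul, add_zero, norm_smul, hx1, mul_one, Real.norm_eq_abs]
    · intro q
      show ‖(0:ℝ) • x + q • v‖ = |q|
      rw [zero_smul, zero_add, norm_smul, hv1, mul_one, Real.norm_eq_abs]
    · intro p q
      show ‖p • x + (-q) • v‖ = ‖p • x + q • v‖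
      rw [← hs (p • x + q • v), hPpq]
      congr 1
      module
  have hbd : ∀ k : ℕ, k * θ ≤ Real.pi / 2 →
      |n (Real.cos (k * θ)) (K * Real.sin (k * θ)) - 1| ≤ c := by
    intro k hk
    have h1 := (hit k).1.trans (hkb k (by linarith)).1
    have h2 : ‖(U ^ k) x‖ = 1 := by rw [(U ^ k).norm_map, hx1]
    have h3 := abs_norm_sub_norm_le (Real.cos (k * θ) • x + (K * Real.sin (k * θ)) • v) ((U ^ k) x)
    rw [h2, norm_sub_rev] at h3
    exact h3.trans h1
  obtain ⟨hK1, heu⟩ := hn.near_euclid hc1 hθ0 hθc hKpos hbd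
  have hK2 := abs_le.1 hK1
  have hK34 : 3 / 4 ≤ K := by linarith
  refine ⟨x, v, U, hPx, hx1, hPv, hv1, hsU, fun φ hφ0 hφ1 => ?_, fun p q => ?_⟩
  · have g1 := Nat.floor_le (div_nonneg hφ0 hθ0.le)
    have g2 := Nat.lt_floor_add_one (φ / θ)
    rw [le_div_iff₀ hθ0] at g1
    rw [div_lt_iff₀ hθ0] at g2
    set k : ℕ := ⌊φ / θ⌋₊ with hkdef
    have gk : |φ - k * θ| ≤ c := by
      rw [abs_le]
      constructor <;> nlinarith
    have hk2 : k * θ ≤ 2 * Real.pi := by linarith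
    have c1 : |Real.cos (k * θ) - Real.cos φ| ≤ c := by
      rw [abs_sub_comm]
      exact (Real.abs_cos_sub_cos_le _ _).trans gk
    have s1 : |Real.sin (k * θ) - Real.sin φ| ≤ c := by
      rw [abs_sub_comm]
      exact (Real.abs_sin_sub_sin_le _ _).trans gk
    have s2 : |K * Real.sin (k * θ) - Real.sin φ| ≤ 5 * c := by
      have e : K * Real.sin (k * θ) - Real.sin φ =
          (K - 1) * Real.sin (k * θ) + (Real.sin (k * θ) - Real.sin φ) := by
        ring
      rw [e]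
      refine (abs_add_le _ _).trans ?_
      rw [abs_mul]
      have : |K - 1| * |Real.sin (k * θ)| ≤ 4 * c * 1 :=
        mul_le_mul hK1 (Real.abs_sin_le_one _) (abs_nonneg _) (by linarith)
      linarith
    have s3 : |Real.sin (k * θ) / K - Real.sin φ| ≤ 7 * c := by
      have e : Real.sin (k * θ) / K - Real.sin φ =
          (1 - K) / K * Real.sin (k * θ) + (Real.sin (k * θ) - Real.sin φ) := by
        field_simp
        ring
      rw [e]
      refine (abs_add_le _ _).trans ?_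
      rw [abs_mul, abs_div, abs_of_pos hKpos, abs_sub_comm 1 K]
      have h1 : |K - 1| / K ≤ 6 * c := by
        rw [div_le_iff₀ hKpos]
        nlinarith
      have : |K - 1| / K * |Real.sin (k * θ)| ≤ 6 * c * 1 :=
        mul_le_mul h1 (Real.abs_sin_le_one _) (abs_nonneg _) (by linarith)
      linarith
    refine ⟨k, ?_, ?_⟩
    · have h1 := (hit k).1.trans (hkb k hk2).1
      have e : (U ^ k) x - (Real.cos φ • x + Real.sin φ • v) =
          ((U ^ k) x - (Real.cos (k * θ) • x + (K * Real.sin (k * θ)) • v)) +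
          (Real.cos (k * θ) - Real.cos φ) • x + (K * Real.sin (k * θ) - Real.sin φ) • v := by module
      rw [e]
      refine norm_add₃_le.trans ?_
      rw [norm_smul, norm_smul, hx1, hv1, Real.norm_eq_abs, Real.norm_eq_abs, mul_one, mul_one]
      linarith
    · have h1 := (hit k).2.trans (hkb k hk2).2
      have e : (U ^ k) v - (Real.cos φ • v - Real.sin φ • x) =
          ((U ^ k) v - (-(Real.sin (k * θ) / K) • x + Real.cos (k * θ) • v)) +
          (-(Real.sin (k * θ) / K - Real.sin φ)) • x + (Real.cos (k * θ) - Real.cos φ) • v := by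
        module
      rw [e]
      refine norm_add₃_le.trans ?_
      rw [norm_smul, norm_smul, hx1, hv1, Real.norm_eq_abs, Real.norm_eq_abs, mul_one, mul_one,
        abs_neg]
      linarith
  · refine (heu p q).trans ?_
    refine mul_le_mul_of_nonneg_right ?_ (Real.sqrt_nonneg _)
    linarith

end Pool.Agent.X192.BM
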